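import Pool.Agent.Helper26_DEF.Sem

/-!
# Consequences of `PA⁻`
-/

set_option autoImplicit false

namespace Pool.Agent.Helper26_DEF

open FirstOrder FirstOrder.Language

/-- zero, successor, addition, multiplication -/
structure Ops (M : Type) where
  /-- zero -/
  o : M
  /-- successor -/
  s : M → M
  /-- addition -/
  a : M → M → M
  /-- multiplication -/
  m : M → M → M

namespace Ops

variable {M : Type} (O : Ops M)

/-- numerals -/
def nm : ℕ → M
  | 0 => O.o
  | n + 1 => O.s (nm n)

/-- pairs -/
def pr (x y : M) : M := O.a (O.m (O.a x y) (O.a x y)) x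

/-- tuples -/
def tup : ∀ {n : ℕ}, (Fin n → M) → M
  | 0, _ => O.o
  | _ + 1, x => O.pr (x 0) (tup fun i => x i.succ)

theorem tup_inj (h : ∀ x y u v, O.pr x y = O.pr u v → x = u ∧ y = v) :
    ∀ {n : ℕ} {x y : Fin n → M}, O.tup x = O.tup y → x = y
  | 0, _, _, _ => Subsingleton.elim _ _
  | n + 1, x, y, e => by
    obtain ⟨h1, h2⟩ := h _ _ _ _ e
    have h3 := tup_inj h h2
    funext i
    refine Fin.cases h1 (fun j => ?_) i
    exact congrFun h3 j

theorem nm_inj (h1 : ∀ x, O.s x ≠ O.o) (h2 : ∀ x y, O.s x = O.s y → x = y) :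
    ∀ {i j : ℕ}, O.nm i = O.nm j → i = j
  | 0, 0, _ => rfl
  | 0, _ + 1, h => absurd h.symm (h1 _)
  | _ + 1, 0, h => absurd h (h1 _)
  | _ + 1, _ + 1, h => by rw [nm_inj h1 h2 (h2 _ _ h)]

end Ops

/-- The facts about `PA⁻` that are used. -/
structure Fine {M : Type} (O : Ops M) (l : M → M → Prop) : Prop where
  s_ne : ∀ x, O.s x ≠ O.o
  s_inj : ∀ x y, O.s x = O.s y → x = y
  cases : ∀ x, x = O.o ∨ ∃ y, x = O.s y
  a_o : ∀ x, O.a x O.o = x
  a_s : ∀ x y, O.a x (O.s y) = O.s (O.a x y)
  m_o : ∀ x, O.m x O.o = O.o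
  m_s : ∀ x y, O.m x (O.s y) = O.a (O.m x y) x
  pr_inj : ∀ x y u v, O.pr x y = O.pr u v → x = u ∧ y = v
  lt_iff : ∀ x y, l x y ↔ ∃ z, O.a z (O.s x) = y

/-- the operations of an arithmetical structure -/
def opsL (f : List ℕ) (M : Type) [(LA f).Structure M] : Ops M where
  o := zr f M
  s x := ad f x (on f M)
  a := ad f
  m := mu f

theorem fine_of {f : List ℕ} {M : Type} [(LA f).Structure M] (h : IsPAMinus f M) :
    Fine (opsL f M) (ls f) := by
  classical
  let iz : Zero M := ⟨zr f M⟩
  let io : One M := ⟨on f M⟩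
  let ia : Add M := ⟨ad f⟩
  let im : Mul M := ⟨mu f⟩
  let i1 : CommSemiring M :=
    { add_assoc := h.add_assoc
      zero_add := fun x => (h.add_comm _ _).trans (h.add_zero x)
      add_zero := h.add_zero
      add_comm := h.add_comm
      nsmul := nsmulRec
      mul_assoc := h.mul_assoc
      mul_comm := h.mul_comm
      one_mul := fun x => (h.mul_comm _ _).trans (h.mul_one x)
      mul_one := h.mul_one
      left_distrib := h.distrib
      right_distrib := fun x y z => by
        show mu f (ad f x y) z = ad f (mu f x z) (mu f y z)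
        rw [h.mul_comm, h.distrib, h.mul_comm z x, h.mul_comm z y]
      zero_mul := fun x => (h.mul_comm _ _).trans (h.mul_zero x)
      mul_zero := h.mul_zero
      npow := npowRec }
  let i2 : LinearOrder M :=
    { le := fun x y => ls f x y ∨ x = y
      lt := ls f
      le_refl := fun x => Or.inr rfl
      le_trans := by
        rintro x y z (h1 | rfl) (h2 | rfl)
        · exact Or.inl (h.lt_trans _ _ _ h1 h2)
        · exact Or.inl h1
        · exact Or.inl h2
        · exact Or.inr rfl
      lt_iff_le_not_ge := by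
        intro x y
        constructor
        · intro h1
          refine ⟨Or.inl h1, ?_⟩
          rintro (h2 | rfl)
          · exact h.lt_irrefl _ (h.lt_trans _ _ _ h1 h2)
          · exact h.lt_irrefl _ h1
        · rintro ⟨h1 | rfl, h2⟩
          · exact h1
          · exact absurd (Or.inr rfl) h2
      le_antisymm := by
        rintro x y (h1 | rfl) (h2 | h2)
        · exact absurd (h.lt_trans _ _ _ h1 h2) (h.lt_irrefl _)
        · exact h2.symm
        · rfl
        · rfl
      le_total := by
        intro x y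
        rcases h.lt_total x y with h1 | rfl | h1
        · exact Or.inl (Or.inl h1)
        · exact Or.inl (Or.inr rfl)
        · exact Or.inr (Or.inl h1)
      toDecidableLE := fun _ _ => Classical.propDecidable _ }
  have hlt : ∀ x y : M, ls f x y ↔ x < y := fun _ _ => Iff.rfl
  have a1 : ∀ x y z : M, x < y → x + z < y + z := h.add_lt
  have a2 : ∀ x y z : M, x ≤ y → x + z ≤ y + z := by
    intro x y z hxy
    rcases hxy.lt_or_eq with h1 | rfl
    · exact (a1 _ _ z h1).le
    · exact le_rfl
  have hz0 : ∀ x : M, 0 ≤ x := by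
    intro x
    rcases h.nonneg x with h1 | h1
    · exact (show x = 0 from h1) ▸ le_rfl
    · exact (show (0 : M) < x from h1).le
  have canc : ∀ x y z : M, x + z = y + z → x = y := by
    intro x y z e
    rcases lt_trichotomy x y with h1 | h1 | h1
    · exact absurd e (a1 _ _ z h1).ne
    · exact h1
    · exact absurd e (a1 _ _ z h1).ne'
  have ha : ∀ x y : M, (opsL f M).a x y = x + y := fun _ _ => rfl
  have hm : ∀ x y : M, (opsL f M).m x y = x * y := fun _ _ => rfl
  have hs : ∀ x : M, (opsL f M).s x = x + 1 := fun _ => rfl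
  have ho : (opsL f M).o = (0 : M) := rfl
  have h01 : (0 : M) < 1 := h.zero_lt_one
  have pos_s : ∀ x : M, 0 < x + 1 := by
    intro x
    have := a2 0 x 1 (hz0 x)
    rw [zero_add] at this
    exact lt_of_lt_of_le h01 this
  have disc : ∀ x : M, 0 < x → 1 ≤ x := by
    intro x hx
    rcases h.discrete x hx with h1 | h1
    · exact (show x = 1 from h1).ge
    · exact (show (1 : M) < x from h1).le
  have sub : ∀ x y : M, x < y → ∃ z, z + (x + 1) = y := by
    intro x y hxy
    obtain ⟨z, hz⟩ := h.sub x y hxy
    have hz : x + z = y := hz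
    have hz0' : z ≠ 0 := by
      rintro rfl
      rw [add_zero] at hz
      exact hxy.ne hz
    have hz1 := disc z (lt_of_le_of_ne (hz0 z) hz0'.symm)
    rcases hz1.lt_or_eq with h1 | h1
    · obtain ⟨w, hw⟩ := h.sub 1 z h1
      have hw : 1 + w = z := hw
      refine ⟨w, ?_⟩
      rw [← hz, ← hw]
      ring
    · refine ⟨0, ?_⟩
      rw [← hz, ← h1, zero_add]
  have sub' : ∀ x y : M, x < y → x + 1 ≤ y := by
    intro x y hxy
    obtain ⟨z, hz⟩ := sub x y hxy
    have := a2 0 z (x + 1) (hz0 z)
    rw [zero_add, hz] at this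
    exact this
  have le_add : ∀ x y : M, x ≤ x + y := by
    intro x y
    have := a2 0 y x (hz0 y)
    rw [zero_add, add_comm] at this
    exact this
  -- squares
  have sq : ∀ p q x u : M, p < q → x ≤ p → p * p + x < q * q + u := by
    intro p q x u hpq hxp
    obtain ⟨z, hz⟩ := sub p q hpq
    obtain ⟨w, hw⟩ : ∃ w, x + w = p := by
      rcases hxp.lt_or_eq with h1 | h1
      · obtain ⟨w, hw⟩ := h.sub x p h1
        exact ⟨w, hw⟩
      · exact ⟨0, by rw [add_zero, h1]⟩
    have e : q * q + u = (w + p + z * z + z * p + z * p + z + z + u + 1) + (p * p + x) := by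
      rw [← hz]
      calc (z + (p + 1)) * (z + (p + 1)) + u
          = z * z + z * p + z * p + z + z + p * p + p + p + 1 + u := by ring
        _ = z * z + z * p + z * p + z + z + p * p + p + (x + w) + 1 + u := by rw [hw]
        _ = _ := by ring
    rw [e]
    have := a1 0 (w + p + z * z + z * p + z * p + z + z + u + 1) (p * p + x) (pos_s _)
    rwa [zero_add] at this
  refine ⟨?_, ?_, ?_, ?_, ?_, ?_, ?_, ?_, ?_⟩
  · intro x
    rw [hs, ho]
    exact (pos_s x).ne'
  · intro x y e
    exact canc _ _ _ e
  · intro x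
    rcases (hz0 x).lt_or_eq with h1 | h1
    · right
      obtain ⟨z, hz⟩ := sub 0 x h1
      rw [zero_add] at hz
      exact ⟨z, hz.symm⟩
    · exact Or.inl h1.symm
  · intro x
    rw [ha, ho, add_zero]
  · intro x y
    rw [ha, hs, ha, hs, add_assoc]
  · intro x
    rw [hm, ho, mul_zero]
  · intro x y
    rw [hm, hs, ha, hm, mul_add, mul_one]
  · intro x y u v e
    have e : (x + y) * (x + y) + x = (u + v) * (u + v) + u := e
    have h1 : x + y = u + v := by
      rcases lt_trichotomy (x + y) (u + v) with h1 | h1 | h1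
      · exact absurd e (sq _ _ x u h1 (le_add x y)).ne
      · exact h1
      · exact absurd e (sq _ _ u x h1 (le_add u v)).ne'
    rw [h1] at e
    rw [add_comm _ x, add_comm _ u] at e
    have h2 := canc _ _ _ e
    refine ⟨h2, ?_⟩
    rw [h2, add_comm u y, add_comm u v] at h1
    exact canc _ _ _ h1
  · intro x y
    rw [hlt]
    constructor
    · exact sub x y
    · rintro ⟨z, hz⟩
      have hz : z + (x + 1) = y := hz
      have h1 : x + 1 ≤ y := by
        have := a2 0 z (x + 1) (hz0 z)
        rw [zero_add, hz] at this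
        exact this
      refine lt_of_lt_of_le ?_ h1
      have := a1 0 1 x h01
      rw [zero_add, add_comm] at this
      exact this

end Pool.Agent.Helper26_DEF
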