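import Pool.Agent.Helper26_DEF.Arith
import Pool.Agent.Helper364_SP.HalR
import Pool.Agent.Helper364_SP.RrRec
import Pool.Agent.Helper364_SP.CompC
import Pool.Agent.Helper364_SP.ClaimOne

/-!
# Uniform definability in a class of structures
-/

set_option autoImplicit false

namespace Pool.Agent.Helper26_DEF

open FirstOrder FirstOrder.Language
open Pool.Agent.TH672 (Fm Str upd Pv LogK)
open Pool.Agent.TH636.BC (Fml inst robinson Arith)
open Pool.Agent.TH838.J1549 (Q)
open Pool.Agent.Helper364_SP (OpB)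

/-- The relation `R` is defined by the same formula in all structures of the class; the formula
contains only the symbols `op i` with `i < B`. -/
def DD (B : ℕ) {I : Type 1} (S : I → Str ℕ) {β : Type} (R : ∀ i : I, (β → (S i).M) → Prop) : Prop :=
  ∀ e : β → ℕ, ∃ φ : Fml, OpB B φ ∧ (∀ x, φ.Free x → ∃ b, e b = x) ∧
    ∀ (i : I) (v : ℕ → (S i).M), Fm.Sat (S i) φ v ↔ R i (fun b => v (e b))

namespace DD

variable {B : ℕ} {I : Type 1} {S : I → Str ℕ} {β : Type}

theorem eq (a b : β) : DD B S (fun _ w => w a = w b) :=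
  fun e => ⟨.eq (e a) (e b), trivial, by
    rintro x (h | h)
    · exact ⟨a, h.symm⟩
    · exact ⟨b, h.symm⟩, fun _ _ => Iff.rfl⟩

theorem zero (a : β) : DD B S (fun i w => (S i).zero (w a)) :=
  fun e => ⟨.zero (e a), trivial, fun _ h => ⟨a, Eq.symm h⟩, fun _ _ => Iff.rfl⟩

theorem succ (a b : β) : DD B S (fun i w => (S i).succ (w a) (w b)) :=
  fun e => ⟨.succ (e a) (e b), trivial, by
    rintro x (h | h)
    · exact ⟨a, h.symm⟩
    · exact ⟨b, h.symm⟩, fun _ _ => Iff.rfl⟩

theorem add (a b c : β) : DD B S (fun i w => (S i).add (w a) (w b) (w c)) :=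
  fun e => ⟨.add (e a) (e b) (e c), trivial, by
    rintro x (h | h | h)
    · exact ⟨a, h.symm⟩
    · exact ⟨b, h.symm⟩
    · exact ⟨c, h.symm⟩, fun _ _ => Iff.rfl⟩

theorem mul (a b c : β) : DD B S (fun i w => (S i).mul (w a) (w b) (w c)) :=
  fun e => ⟨.mul (e a) (e b) (e c), trivial, by
    rintro x (h | h | h)
    · exact ⟨a, h.symm⟩
    · exact ⟨b, h.symm⟩
    · exact ⟨c, h.symm⟩, fun _ _ => Iff.rfl⟩

theorem op (k : ℕ) (a b c d : β) (hi : k < B) :
    DD B S (fun i w => (S i).op k (w a) (w b) (w c) (w d)) :=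
  fun e => ⟨.op k (e a) (e b) (e c) (e d), hi, by
    rintro x (h | h | h | h)
    · exact ⟨a, h.symm⟩
    · exact ⟨b, h.symm⟩
    · exact ⟨c, h.symm⟩
    · exact ⟨d, h.symm⟩, fun _ _ => Iff.rfl⟩

theorem false' : DD B S (fun _ (_ : β → _) => False) :=
  fun _ => ⟨.bot, trivial, fun _ h => absurd h id, fun _ _ => Iff.rfl⟩

theorem imp {R R' : ∀ i : I, (β → (S i).M) → Prop} (h : DD B S R) (h' : DD B S R') :
    DD B S (fun i w => R i w → R' i w) := by
  intro e
  obtain ⟨φ, h1, h2, hφ⟩ := h e
  obtain ⟨ψ, h1', h2', hψ⟩ := h' e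
  exact ⟨.imp φ ψ, ⟨h1, h1'⟩, fun x hx => hx.elim (h2 x) (h2' x),
    fun i v => by rw [Fm.sat_imp, hφ, hψ]⟩

theorem not {R : ∀ i : I, (β → (S i).M) → Prop} (h : DD B S R) :
    DD B S (fun i w => ¬ R i w) :=
  h.imp false'

theorem of_iff {R R' : ∀ i : I, (β → (S i).M) → Prop} (h : DD B S R)
    (hR : ∀ i w, R i w ↔ R' i w) : DD B S R' := by
  intro e
  obtain ⟨φ, h1, h2, hφ⟩ := h e
  exact ⟨φ, h1, h2, fun i v => by rw [hφ, hR]⟩

theorem and {R R' : ∀ i : I, (β → (S i).M) → Prop} (h : DD B S R) (h' : DD B S R') :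
    DD B S (fun i w => R i w ∧ R' i w) :=
  (h.imp h'.not).not.of_iff fun i w => by tauto

theorem or {R R' : ∀ i : I, (β → (S i).M) → Prop} (h : DD B S R) (h' : DD B S R') :
    DD B S (fun i w => R i w ∨ R' i w) :=
  (h.not.imp h').of_iff fun i w => by tauto

theorem iff {R R' : ∀ i : I, (β → (S i).M) → Prop} (h : DD B S R) (h' : DD B S R') :
    DD B S (fun i w => R i w ↔ R' i w) :=
  ((h.imp h').and (h'.imp h)).of_iff fun i w => by tauto

theorem fresh [Finite β] (e : β → ℕ) : ∃ x, ∀ b, e b ≠ x := by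
  obtain ⟨x, hx⟩ := (Set.finite_range e).exists_notMem
  exact ⟨x, fun b h => hx ⟨b, h⟩⟩

theorem all [Finite β] {R : ∀ i : I, (β → (S i).M) → (S i).M → Prop}
    (h : DD B S (fun i (w : Option β → (S i).M) => R i (fun b => w (some b)) (w none))) :
    DD B S (fun i w => ∀ a, R i w a) := by
  intro e
  obtain ⟨x, hx⟩ := fresh e
  obtain ⟨φ, h1, h2, hφ⟩ := h (fun o => o.elim x e)
  refine ⟨.all x φ, h1, ?_, fun i v => ?_⟩
  · rintro y ⟨hy1, hy2⟩
    obtain ⟨o, ho⟩ := h2 y hy2
    cases o with
    | none => exact absurd ho.symm hy1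
    | some b => exact ⟨b, ho⟩
  rw [Fm.sat_all]
  refine forall_congr' fun a => ?_
  rw [hφ]
  simp only [Option.elim_some, Option.elim_none, TH672.upd_same]
  have : (fun b => upd v x a (e b)) = fun b => v (e b) := by
    funext b
    exact TH672.upd_ne v a (hx b)
  rw [this]

theorem ex [Finite β] {R : ∀ i : I, (β → (S i).M) → (S i).M → Prop}
    (h : DD B S (fun i (w : Option β → (S i).M) => R i (fun b => w (some b)) (w none))) :
    DD B S (fun i w => ∃ a, R i w a) :=
  (all (R := fun i w a => ¬ R i w a) h.not).not.of_iff fun i w => by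
    simp only [not_forall, not_not]

theorem map {β' : Type} {R : ∀ i : I, (β → (S i).M) → Prop} (h : DD B S R) (g : β → β') :
    DD B S (β := β') (fun i w => R i (fun b => w (g b))) := by
  intro e
  obtain ⟨φ, h1, h2, h3⟩ := h (fun b => e (g b))
  refine ⟨φ, h1, fun x hx => ?_, fun i v => h3 i v⟩
  obtain ⟨b, hb⟩ := h2 x hx
  exact ⟨g b, hb⟩

theorem true' : DD B S (fun _ (_ : β → _) => True) :=
  (false' (β := β)).not.of_iff fun _ _ => by simp

/-- finite conjunctions -/
theorem allFin : ∀ (m : ℕ) (R : Fin m → ∀ i : I, (β → (S i).M) → Prop),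
    (∀ j, DD B S (R j)) → DD B S (fun i w => ∀ j, R j i w)
  | 0, _, _ => (true' (β := β)).of_iff fun _ _ => by simp
  | m + 1, R, h => ((h 0).and (allFin m (fun j => R j.succ) fun j => h j.succ)).of_iff
      fun i w => (Fin.forall_fin_succ (P := fun j => R j i w)).symm

/-- finite disjunctions -/
theorem exFin (m : ℕ) (R : Fin m → ∀ i : I, (β → (S i).M) → Prop)
    (h : ∀ j, DD B S (R j)) : DD B S (fun i w => ∃ j, R j i w) :=
  (allFin m (fun j i w => ¬ R j i w) fun j => (h j).not).not.of_iff fun i w => by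
    simp only [not_forall, not_not]

/-- quantification over finite tuples -/
theorem exTuple : ∀ (m : ℕ) {β : Type} [Finite β]
    {R : ∀ i : I, (β → (S i).M) → (Fin m → (S i).M) → Prop},
    DD B S (β := β ⊕ Fin m) (fun i w => R i (fun b => w (Sum.inl b)) (fun c => w (Sum.inr c))) →
    DD B S (fun i w => ∃ u, R i w u)
  | 0, β, _, R, h => by
    refine (map h (Sum.elim id (fun j : Fin 0 => j.elim0))).of_iff fun i w => ?_
    constructor
    · intro h2
      exact ⟨_, h2⟩
    · rintro ⟨u, hu⟩
      have : (fun c : Fin 0 => w (Sum.elim id (fun j : Fin 0 => j.elim0)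
          (Sum.inr c : β ⊕ Fin 0))) = u := Subsingleton.elim _ _
      rw [this]
      exact hu
  | m + 1, β, _, R, h => by
    let g : β ⊕ Fin (m + 1) → Option β ⊕ Fin m :=
      Sum.elim (fun b => Sum.inl (some b))
        (fun j => Fin.cases (motive := fun _ => Option β ⊕ Fin m) (Sum.inl none) Sum.inr j)
    have h1 := map h g
    have h2 := exTuple m (β := Option β) (R := fun i w u => R i (fun b => w (some b))
      (Fin.cons (α := fun _ => (S i).M) (w none) u)) (h1.of_iff fun i w => by
        have : (fun j : Fin (m + 1) => w (g (Sum.inr j))) =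
            Fin.cons (α := fun _ => (S i).M) (w (Sum.inl none)) (fun c => w (Sum.inr c)) := by
          funext j
          refine Fin.cases ?_ (fun j => ?_) j
          · simp [g]
          · simp [g]
        rw [this]
        exact Iff.rfl)
    refine (ex (R := fun i w a => ∃ u : Fin m → (S i).M,
      R i w (Fin.cons (α := fun _ => (S i).M) a u)) h2).of_iff fun i w => ?_
    constructor
    · rintro ⟨a, u, hu⟩
      exact ⟨_, hu⟩
    · rintro ⟨u, hu⟩
      refine ⟨u 0, fun j => u j.succ, ?_⟩
      have : Fin.cons (α := fun _ => (S i).M) (u 0) (fun j => u j.succ) = u := by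
        funext j
        refine Fin.cases ?_ (fun j => ?_) j <;> simp
      rw [this]
      exact hu

theorem allTuple (m : ℕ) {β : Type} [Finite β]
    {R : ∀ i : I, (β → (S i).M) → (Fin m → (S i).M) → Prop}
    (h : DD B S (β := β ⊕ Fin m)
      (fun i w => R i (fun b => w (Sum.inl b)) (fun c => w (Sum.inr c)))) :
    DD B S (fun i w => ∀ u, R i w u) :=
  (exTuple m (R := fun i w u => ¬ R i w u) h.not).not.of_iff fun i w => by
    simp only [not_exists, not_not]

end DD

/-- the operations of a model of Robinson arithmetic -/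
def opsQ {S : Str ℕ} (q : Q S) : Ops S.M := ⟨q.o, q.s, q.a, q.m⟩

theorem opsQ_nm {S : Str ℕ} (q : Q S) : ∀ n, (opsQ q).nm n = q.nm n
  | 0 => rfl
  | n + 1 => congrArg q.s (opsQ_nm q n)

namespace DD

variable {B : ℕ} {I : Type 1} {S : I → Str ℕ} {β : Type}

theorem qo (q : ∀ i, Q (S i)) (a : β) : DD B S (fun i w => w a = (q i).o) :=
  (DD.zero a).of_iff fun i w => (q i).zero_iff (w a)

theorem qs (q : ∀ i, Q (S i)) (a b : β) : DD B S (fun i w => w a = (q i).s (w b)) :=
  (DD.succ b a).of_iff fun i w => (q i).succ_iff (w b) (w a)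

theorem qa (q : ∀ i, Q (S i)) (a b c : β) : DD B S (fun i w => w a = (q i).a (w b) (w c)) :=
  (DD.add b c a).of_iff fun i w => (q i).add_iff (w b) (w c) (w a)

theorem qm (q : ∀ i, Q (S i)) (a b c : β) : DD B S (fun i w => w a = (q i).m (w b) (w c)) :=
  (DD.mul b c a).of_iff fun i w => (q i).mul_iff (w b) (w c) (w a)

/-- If a term and the relation are definable then the relation holds of the term. -/
theorem sub1 [Finite β] {T : ∀ i : I, (β → (S i).M) → (S i).M}
    {R : ∀ i : I, (β → (S i).M) → (S i).M → Prop}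
    (hT : DD B S (fun i (w : Option β → (S i).M) => w none = T i (fun b => w (some b))))
    (h : DD B S (fun i (w : Option β → (S i).M) => R i (fun b => w (some b)) (w none))) :
    DD B S (fun i w => R i w (T i w)) :=
  (DD.ex (R := fun i w a => a = T i w ∧ R i w a) (hT.and h)).of_iff fun i w => by simp

theorem qnm (q : ∀ i, Q (S i)) : ∀ (n : ℕ) {β : Type} [Finite β] (a : β),
    DD B S (fun i w => w a = (opsQ (q i)).nm n)
  | 0, β, _, a => qo q a
  | n + 1, β, _, a => (DD.ex (R := fun i w x => x = (opsQ (q i)).nm n ∧ w a = (q i).s x)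
      ((qnm q (β := Option β) n none).and (qs q (some a) none))).of_iff fun i w => by
        simp only [exists_eq_left]
        exact Iff.rfl

theorem qpr (q : ∀ i, Q (S i)) [Finite β] (a b c : β) :
    DD B S (fun i w => w a = (opsQ (q i)).pr (w b) (w c)) :=
  (DD.ex (R := fun i w x => x = (q i).a (w b) (w c) ∧ ∃ y, y = (q i).m x x ∧
      w a = (q i).a y (w b)) ((qa q none (some b) (some c)).and
      (DD.ex (R := fun i (w : Option β → (S i).M) y => y = (q i).m (w none) (w none) ∧
        w (some a) = (q i).a y (w (some b)))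
        ((qm q none (some none) (some none)).and (qa q (some (some a)) none (some (some b))))))).of_iff
      fun i w => by
        simp only [exists_eq_left]
        exact Iff.rfl

theorem qtup (q : ∀ i, Q (S i)) : ∀ (n : ℕ) {β : Type} [Finite β] (a : β) (g : Fin n → β),
    DD B S (fun i w => w a = (opsQ (q i)).tup (fun j => w (g j)))
  | 0, β, _, a, g => qo q a
  | n + 1, β, _, a, g =>
    (DD.ex (R := fun i w x => x = (opsQ (q i)).tup (fun j : Fin n => w (g j.succ)) ∧
      w a = (opsQ (q i)).pr (w (g 0)) x)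
      ((qtup q n (β := Option β) none (fun j => some (g j.succ))).and
        (qpr q (some a) (some (g 0)) none))).of_iff fun i w => by
        simp only [exists_eq_left]
        exact Iff.rfl

end DD

end Pool.Agent.Helper26_DEF
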