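import Mathlib

/-!
# Definitions of truth and the definability order: definitions

Languages of arithmetic, their extensions by finitely many relation symbols, translations,
provability, theories of truth, definitions of truth, the definability preorder.
-/

set_option autoImplicit false

namespace Pool.Agent.Helper26_DEF

open FirstOrder FirstOrder.Language

/-! ### Languages -/

/-- The function symbols of the language of arithmetic: `0`, `1`, `+`, `·`, and further function
symbols with the arities given by the list `f` (for example `f = []`, or `f = [1]` for a language
with a symbol for the exponential function). -/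
inductive ArFun (f : List ℕ) : ℕ → Type
  | zero : ArFun f 0
  | one : ArFun f 0
  | add : ArFun f 2
  | mul : ArFun f 2
  | ext (j : Fin f.length) : ArFun f (f.get j)

/-- The relation symbol of the language of arithmetic (besides equality): `<`. -/
inductive ArRel : ℕ → Type
  | lt : ArRel 2

/-- The language of arithmetic `0, 1, +, ·, <` with further function symbols of the arities `f`. -/
def LA (f : List ℕ) : FirstOrder.Language.{0, 0} := ⟨ArFun f, ArRel⟩

/-- New relation symbols: for each position `i` of the list `s` of natural numbers a relation symbol
whose arity is the entry at this position. -/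
inductive NewRel (s : List ℕ) : ℕ → Type
  | sym (i : Fin s.length) : NewRel s (s.get i)

/-- The language obtained from the language of arithmetic `LA f` by adding finitely many relation
symbols, whose arities are given by the list `s`. -/
def LE (f s : List ℕ) : FirstOrder.Language.{0, 0} := ⟨ArFun f, fun n => ArRel n ⊕ NewRel s n⟩

/-- The inclusion of the language of arithmetic in the extended language. -/
def incl (f s : List ℕ) : LA f →ᴸ LE f s := ⟨fun {_} F => F, fun {_} R => Sum.inl R⟩

/-- An arithmetical sentence as a sentence of the extended language. -/
def lift (f s : List ℕ) (σ : (LA f).Sentence) : (LE f s).Sentence := (incl f s).onSentence σ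

/-! ### Provability -/

/-- `Prov α φ`: the sentence `α` proves the sentence `φ`; that is, `φ` is a semantic consequence of
`α` (by the completeness theorem this is the same as provability in first-order logic with
equality). -/
def Prov {L : FirstOrder.Language.{0, 0}} (α φ : L.Sentence) : Prop :=
  ({α} : L.Theory) ⊨ᵇ φ

/-! ### Translations -/

/-- A term, read in a language with other relation symbols (the function symbols are the same). -/
def tmap (f s t : List ℕ) {α : Type} : (LE f s).Term α → (LE f t).Term α
  | .var x => .var x
  | .func (l := l) F ts => .func (l := l) (F : ArFun f l) fun i => tmap f s t (ts i)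

/-- A translation of the language `LE f s` into the language `LE f t`: each new relation symbol of
`LE f s` of arity `n` is sent to a formula of `LE f t` with the free variables `0, ..., n - 1`. -/
abbrev Trans (f s t : List ℕ) : Type := ∀ i : Fin s.length, (LE f t).Formula (Fin (s.get i))

/-- The translation of a formula: the arithmetical symbols and equality are fixed, an atomic formula
`R t_0 ... t_{n-1}` with a new relation symbol `R` is replaced by the formula which is assigned to
`R`, with the terms `t_0, ..., t_{n-1}` in place of its free variables; the connectives and the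
quantifiers are not changed (in particular the quantifiers are not relativised). -/
def tr {f s t : List ℕ} (τ : Trans f s t) {α : Type} :
    ∀ {n : ℕ}, (LE f s).BoundedFormula α n → (LE f t).BoundedFormula α n
  | _, .falsum => .falsum
  | _, .equal u v => .equal (tmap f s t u) (tmap f s t v)
  | _, .rel (Sum.inl R) ts => .rel (Sum.inl R) fun i => tmap f s t (ts i)
  | _, .rel (Sum.inr (.sym i)) ts =>
      ((τ i : (LE f t).BoundedFormula _ 0).subst fun k => tmap f s t (ts k)).relabel id
  | _, .imp φ ψ => .imp (tr τ φ) (tr τ ψ)
  | _, .all φ => .all (tr τ φ)

/-! ### Theories of truth -/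

/-- The numeral of `n`: the closed term `(⋯((0 + 1) + 1)⋯) + 1`. -/
def numeral (f s : List ℕ) {α : Type} : ℕ → (LE f s).Term α
  | 0 => .func (l := 0) (ArFun.zero : ArFun f 0) fun i => i.elim0
  | n + 1 => .func (l := 2) (ArFun.add : ArFun f 2)
      ![numeral f s n, .func (l := 0) (ArFun.one : ArFun f 0) fun i => i.elim0]

/-- `α` is a theory of truth over the base theory `E`, for the Gödel numbering `g` of the
arithmetical sentences: `α` proves all axioms of `E`, and there is a formula `Θ(x)` such that `α`
proves `Θ(⌜σ⌝) ↔ σ` for each arithmetical sentence `σ`. -/
def IsTruth {f s : List ℕ} (E : (LA f).Theory) (g : (LA f).Sentence → ℕ) (α : (LE f s).Sentence) :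
    Prop :=
  (∀ φ ∈ E, Prov α (lift f s φ)) ∧
    ∃ Θ : (LE f s).Formula (Fin 1), ∀ σ : (LA f).Sentence,
      Prov α (BoundedFormula.iff
        (BoundedFormula.subst Θ fun _ => numeral f s (g σ) : (LE f s).Sentence) (lift f s σ))

/-- The definitions of truth (the elements of `DEF`): a language obtained from the language of
arithmetic by adding finitely many relation symbols, and a sentence of this language (the
conjunction of the finitely many axioms) which is a theory of truth. -/
structure DefT {f : List ℕ} (E : (LA f).Theory) (g : (LA f).Sentence → ℕ) where
  /-- the arities of the new relation symbols -/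
  s : List ℕ
  /-- the sentence -/
  ax : (LE f s).Sentence
  /-- the sentence is a theory of truth -/
  truth : IsTruth E g ax

/-- `Defines β α` (in symbols `α ⊲ β`): there is a translation `τ` such that `β` proves `τ(α)`. -/
def Defines {f s t : List ℕ} (β : (LE f t).Sentence) (α : (LE f s).Sentence) : Prop :=
  ∃ τ : Trans f s t, Prov β (tr τ α)

/-! ### The theory `PA⁻` -/

section PAminus

variable (f : List ℕ) (M : Type) [(LA f).Structure M]

/-- zero -/
def zr : M := Structure.funMap (L := LA f) (ArFun.zero : ArFun f 0) fun i => i.elim0

/-- one -/
def on : M := Structure.funMap (L := LA f) (ArFun.one : ArFun f 0) fun i => i.elim0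

variable {M} in
/-- addition -/
def ad (x y : M) : M := Structure.funMap (L := LA f) (ArFun.add : ArFun f 2) ![x, y]

variable {M} in
/-- multiplication -/
def mu (x y : M) : M := Structure.funMap (L := LA f) (ArFun.mul : ArFun f 2) ![x, y]

variable {M} in
/-- the order -/
def ls (x y : M) : Prop := Structure.RelMap (L := LA f) (ArRel.lt : ArRel 2) ![x, y]

/-- The structure `M` satisfies the axioms of the theory `PA⁻` of the nonnegative parts of
discretely ordered rings. -/
structure IsPAMinus : Prop where
  add_assoc : ∀ x y z : M, ad f (ad f x y) z = ad f x (ad f y z)
  add_comm : ∀ x y : M, ad f x y = ad f y x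
  mul_assoc : ∀ x y z : M, mu f (mu f x y) z = mu f x (mu f y z)
  mul_comm : ∀ x y : M, mu f x y = mu f y x
  distrib : ∀ x y z : M, mu f x (ad f y z) = ad f (mu f x y) (mu f x z)
  add_zero : ∀ x : M, ad f x (zr f M) = x
  mul_zero : ∀ x : M, mu f x (zr f M) = zr f M
  mul_one : ∀ x : M, mu f x (on f M) = x
  lt_trans : ∀ x y z : M, ls f x y → ls f y z → ls f x z
  lt_irrefl : ∀ x : M, ¬ ls f x x
  lt_total : ∀ x y : M, ls f x y ∨ x = y ∨ ls f y x
  add_lt : ∀ x y z : M, ls f x y → ls f (ad f x z) (ad f y z)
  mul_lt : ∀ x y z : M, ls f (zr f M) z → ls f x y → ls f (mu f x z) (mu f y z)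
  sub : ∀ x y : M, ls f x y → ∃ z, ad f x z = y
  zero_lt_one : ls f (zr f M) (on f M)
  discrete : ∀ x : M, ls f (zr f M) x → x = on f M ∨ ls f (on f M) x
  nonneg : ∀ x : M, x = zr f M ∨ ls f (zr f M) x

end PAminus

/-- The theory `E` in the language of arithmetic extends `PA⁻`: every model of `E` satisfies the
axioms of `PA⁻`. -/
def ExtPAMinus {f : List ℕ} (E : (LA f).Theory) : Prop :=
  ∀ (M : Type) [Nonempty M] [(LA f).Structure M], M ⊨ E → IsPAMinus f M

end Pool.Agent.Helper26_DEF
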