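import Pool.Agent.Helper26_DEF.Rosser

/-!
# The recursively enumerable relation and definability
-/

set_option autoImplicit false

namespace Pool.Agent.Helper26_DEF

open FirstOrder FirstOrder.Language
open Pool.Agent.TH672 (Fm Str upd Pv LogK)
open Pool.Agent.TH636.BC (Fml inst robinson Arith)
open Pool.Agent.TH838.J1549 (Q)
open Pool.Agent.Helper364_SP (OpB Hal HalRep as3)

variable {f s t u : List ℕ}

/-! ### The Rosser sentence -/

theorem OpB.mono {B B' : ℕ} (h : B ≤ B') : ∀ {φ : Fml}, OpB B φ → OpB B' φ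
  | .bot, _ => trivial
  | .eq _ _, _ => trivial
  | .zero _, _ => trivial
  | .succ _ _, _ => trivial
  | .add _ _ _, _ => trivial
  | .mul _ _ _, _ => trivial
  | .op _ _ _ _ _, h' => lt_of_lt_of_le h' h
  | .imp _ _, h' => ⟨OpB.mono h h'.1, OpB.mono h h'.2⟩
  | .all _ φ, h' => OpB.mono (φ := φ) h h'

theorem opB_iter {B : ℕ} {φ : Fml} (h : OpB B φ) : ∀ n : ℕ, OpB B (TH636.BC.blk^[n] φ)
  | 0 => h
  | n + 1 => by
    rw [Function.iterate_succ_apply']
    exact ⟨trivial, trivial, opB_iter h n⟩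

theorem opB_inst {B : ℕ} {φ : Fml} (h : OpB B φ) (x n : ℕ) : OpB B (inst x n φ) :=
  ⟨trivial, opB_iter (φ := .all x (.imp (.eq x 0) φ)) ⟨trivial, h⟩ n⟩

theorem closed_inst {Ro : Fml} (h : ∀ x, Ro.Free x → x = 2) (c : ℕ) : (inst 2 c Ro).Closed :=
  fun x hx => by
    have h1 := TH838.J1549.free_inst hx
    exact h1.2.1 (h x h1.2.2)

/-- the truth value of the Rosser sentence -/
def RoM (Ro : Fml) (c : ℕ) {M : Type} (hM : Nonempty M) (O : Ops M) : Prop :=
  Fm.Sat (mkS M hM O fun _ _ _ _ _ => False) (inst 2 c Ro) fun _ => O.o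

theorem sat_RoM {Ro : Fml} (h1 : OpB 0 Ro) (h2 : ∀ x, Ro.Free x → x = 2) (c : ℕ) {S : Str ℕ}
    (q : Q S) (v : ℕ → S.M) : Fm.Sat S (inst 2 c Ro) v ↔ RoM Ro c S.ne (opsQ q) := by
  rw [sat_mk q (fun _ _ _ _ _ => False) _ (opB_inst h1 2 c) v]
  exact TH838.J1549.sat_cong fun x hx => absurd hx (closed_inst h2 c x)

theorem exPhi (f u : List ℕ) {Ro : Fml} (h1 : OpB 0 Ro) (h2 : ∀ x, Ro.Free x → x = 2) (c : ℕ) :
    ∃ Φ : (LE f u).Sentence, ∀ (M : Type) (hM : Nonempty M) (A : (LE f u).Structure M), PAM A →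
      (@Sentence.Realize (LE f u) M A Φ ↔ RoM Ro c hM (opsA A)) := by
  have h3 := ML.sat (f := f) (s := u) (inst 2 c Ro)
    (OpB.mono (Nat.zero_le 2) (opB_inst h1 2 c)) (γ := Option Empty) (fun _ => none)
  have h4 := ML.ex (R := fun M hM A (_ : Empty → M) x =>
    Fm.Sat (toS hM A fun _ _ => False) (inst 2 c Ro) (fun _ => x)) h3
  obtain ⟨Φ, hΦ⟩ := h4
  refine ⟨Φ, fun M hM A hA => ?_⟩
  refine (hΦ M hM A hA _).trans ?_
  constructor
  · rintro ⟨x, hx⟩
    exact (sat_RoM h1 h2 c (qA hM hA fun _ _ => False) _).1 hx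
  · intro h
    obtain ⟨x⟩ := id hM
    exact ⟨x, (sat_RoM h1 h2 c (qA hM hA fun _ _ => False) _).2 h⟩

theorem opsA_toM (G : GS f) (s : List ℕ) (k : ℕ) : opsA (toM G s k) = opsQ G.q := by
  have h1 : (opsA (toM G s k)).o = G.q.o := rfl
  have h2 : (opsA (toM G s k)).s = G.q.s := by
    funext x
    show G.q.a x (G.q.s G.q.o) = G.q.s x
    rw [G.q.a_s, G.q.a_o]
  have h3 : (opsA (toM G s k)).a = G.q.a := rfl
  have h4 : (opsA (toM G s k)).m = G.q.m := rfl
  calc opsA (toM G s k) = ⟨(opsA (toM G s k)).o, (opsA (toM G s k)).s, (opsA (toM G s k)).a,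
        (opsA (toM G s k)).m⟩ := rfl
    _ = ⟨G.q.o, G.q.s, G.q.a, G.q.m⟩ := by rw [h1, h2, h3, h4]
    _ = opsQ G.q := rfl

/-! ### The data -/

/-- a sentence of the extended language as a formula of the library -/
theorem exSent (k : ℕ) {B : ℕ} (hB : 1 < B) (hk : k < B) (α : (LE f s).Sentence) :
    ∃ a : Fml, OpB B a ∧ a.Closed ∧ ∀ (G : GS f) (v : ℕ → G.S.M),
      Fm.Sat G.S a v ↔ @Sentence.Realize (LE f s) G.S.M (toM G s k) α := by
  obtain ⟨a, h1, h2, h3⟩ := dd_form (f := f) (s := s) (k := k) hB hk (γ := Empty) (n := 0) α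
    (fun e => e.elim (fun e => e.elim) (fun i => i.elim0))
  refine ⟨a, h1, fun x hx => ?_, fun G v => ?_⟩
  · obtain ⟨b, -⟩ := h2 x hx
    exact b.elim (fun e => e.elim) (fun i => i.elim0)
  · refine (h3 G v).trans ?_
    show _ ↔ @BoundedFormula.Realize (LE f s) _ (toM G s k) _ _ α default default
    have key : ∀ (x : Empty → G.S.M) (y : Fin 0 → G.S.M),
        @BoundedFormula.Realize (LE f s) _ (toM G s k) _ _ α x y ↔
          @BoundedFormula.Realize (LE f s) _ (toM G s k) _ _ α default default := by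
      intro x y
      rw [Subsingleton.elim x default, Subsingleton.elim y default]
    exact key _ _

/-- The relation between sentences on the side of the structures: for some translation `τ`, all
models of `α` in which the Rosser sentence is true (`i = 0`) or false (`i ≠ 0`) satisfy `τ(β)`. -/
def NN (α : (LE f s).Sentence) (β : (LE f t).Sentence) (Ro : Fml) (c i : ℕ) : Prop :=
  ∃ τ : Trans f t s, ∀ (M : Type) (hM : Nonempty M) (A : (LE f s).Structure M),
    @Sentence.Realize (LE f s) M A α →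
    ((i = 0 → RoM Ro c hM (opsA A)) ∧ (i ≠ 0 → ¬ RoM Ro c hM (opsA A))) →
      @Sentence.Realize (LE f t) M (pull τ M A) β

/-- an assignment -/
def as2 {M : Type} (a b : M) (n : ℕ) : M := if n = 0 then a else b

theorem exTau (t s : List ℕ) {φ : Fml} (hφ : Ok φ) : ∃ τ : Trans f t s,
    ∀ (M : Type) (hM : Nonempty M) (A : (LE f s).Structure M), PAM A →
      ∀ (j : Fin t.length) (x : Fin (t.get j) → M), @Formula.Realize (LE f s) M A _ (τ j) x ↔
        Fm.Sat (toS hM A fun _ _ => False) φ (as2 ((opsA A).nm j) ((opsA A).tup x)) := by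
  have h : ∀ j : Fin t.length, ML f s (Fin (t.get j)) (fun M hM A x =>
      Fm.Sat (toS hM A fun _ _ => False) φ (as2 ((opsA A).nm j) ((opsA A).tup x))) := by
    intro j
    have h1 := ML.sat (f := f) (s := s) φ hφ.2 (γ := Option (Option (Fin (t.get j))))
      (fun n => if n = 0 then some none else none)
    have h2 : ML f s (Option (Option (Fin (t.get j)))) (fun M hM A v =>
        (v (some none) = (opsA A).nm j ∧ v none = (opsA A).tup (fun i => v (some (some i)))) ∧
          Fm.Sat (toS hM A fun _ _ => False) φ (fun x => v (if x = 0 then some none else none))) :=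
      (((ML.eqT (.var (some none)) (numeral f s j)).and
        (ML.eqT (.var none) (tupT fun i => .var (some (some i))))).and h1).of_iff
        fun M hM A v _ => by
          rw [realize_numeral, realize_tupT]
          exact Iff.rfl
    have h3 := ML.ex (R := fun M hM A (v : Option (Fin (t.get j)) → M) b =>
        (v none = (opsA A).nm j ∧ b = (opsA A).tup (fun i => v (some i))) ∧
          Fm.Sat (toS hM A fun _ _ => False) φ (as2 (v none) b)) (h2.of_iff fun M hM A v _ => by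
        have : (fun x : ℕ => v (if x = 0 then some none else none)) =
            as2 (v (some none)) (v none) := by
          funext x
          unfold as2
          split_ifs <;> rfl
        rw [this])
    have h4 := ML.ex (R := fun M hM A (v : Fin (t.get j) → M) a => ∃ b,
        (a = (opsA A).nm j ∧ b = (opsA A).tup v) ∧
          Fm.Sat (toS hM A fun _ _ => False) φ (as2 a b)) h3
    refine h4.of_iff fun M hM A v _ => ?_
    constructor
    · rintro ⟨a, b, ⟨rfl, rfl⟩, h⟩
      exact h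
    · intro h
      exact ⟨_, _, ⟨rfl, rfl⟩, h⟩
  choose τ hτ using h
  exact ⟨τ, fun M hM A hA j x => hτ j M hM A hA x⟩

theorem fwd {α : (LE f s).Sentence} {β : (LE f t).Sentence} {a0 Fx χ Ro : Fml}
    (hα : ∀ (M : Type) (_ : Nonempty M) (A : (LE f s).Structure M),
      @Sentence.Realize (LE f s) M A α → PAM A)
    (ha0 : ∀ (G : GS f) (v : ℕ → G.S.M),
      Fm.Sat G.S a0 v ↔ @Sentence.Realize (LE f s) G.S.M (toM G s 0) α)
    (hFx : ∀ (X : QS) (v : ℕ → X.S.M), Fm.Sat X.S Fx v ↔ FxT f X)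
    (hχ : ∀ (G : GS f) (v : ℕ → G.S.M),
      Fm.Sat G.S χ v ↔ @Sentence.Realize (LE f t) G.S.M (toM G t 2) β)
    (h1 : OpB 0 Ro) (h2 : ∀ x, Ro.Free x → x = 2) {c i : ℕ}
    (h : Rr (tF Ro) (a0 :: Fx :: robinson) χ c i) : NN α β Ro c i := by
  obtain ⟨φ, hφ, hpv⟩ := h
  obtain ⟨τ, hτ⟩ := exTau (f := f) t s hφ
  refine ⟨τ, fun M hM A hA hi => ?_⟩
  have hP : PAM A := hα M hM A hA
  let X : M → M → Prop := fun a b => Fm.Sat (toS hM A fun _ _ => False) φ (as2 a b)
  let G : GS f := gA hM hP X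
  have hall : ∀ ψ, ψ ∈ dF φ :: Sx (tF Ro) (a0 :: Fx :: robinson) c i →
      ∀ v : ℕ → G.S.M, Fm.Sat G.S ψ v := by
    intro ψ hψ v
    rcases List.mem_cons.1 hψ with rfl | hψ
    · intro a b
      rw [Fm.sat_iff]
      have e1 : Fm.Sat G.S φ (upd (upd v 0 a) 1 b) ↔ X a b := by
        refine (sat_toS hM A X (fun _ _ => False) φ hφ.2 _).trans ?_
        refine TH838.J1549.sat_cong fun x hx => ?_
        have hx2 := hφ.1 x hx
        have : x = 0 ∨ x = 1 := by omega
        rcases this with rfl | rfl <;> simp [upd, as2]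
      rw [e1]
      exact Iff.rfl
    · rcases List.mem_cons.1 hψ with rfl | hψ
      · rw [sat_T h2 G.q, sat_RoM h1 h2 c G.q]
        exact hi
      · rcases List.mem_cons.1 hψ with rfl | hψ
        · rw [ha0 G v]
          have e := toM_gA hM hP X
          show @Sentence.Realize (LE f s) M (toM (gA hM hP X) s 0) α
          rw [e]
          exact hA
        · rcases List.mem_cons.1 hψ with rfl | hψ
          · rw [hFx ⟨G.S, G.q⟩ v]
            exact fun j x => ⟨G.F j x, fun z => G.hF j x z⟩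
          · exact Pool.Agent.Helper364_SP.HalR.sat_robinson G.q ψ hψ v
  have hsat := Pool.Agent.Helper364_SP.ClaimOne.sat_pv (S := G.S) hall hpv
    (fun _ => (opsA A).o)
  rw [hχ G] at hsat
  have e : toM G t 2 = pull τ M A := by
    refine str_ext (fun n F x => toM_fun hM hP X t 2 n F x) (fun x => toM_lt hM hP X t 2 x)
      fun j x => ?_
    show X ((opsA A).nm j) ((opsA A).tup x) ↔ @Formula.Realize (LE f s) M A _ (τ j) x
    rw [hτ M hM A hP j x]
  have hsat' : @Sentence.Realize (LE f t) M (toM G t 2) β := hsat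
  rw [e] at hsat'
  exact hsat'

theorem closed_dF {φ : Fml} (h : ∀ x, φ.Free x → x < 2) : (dF φ).Closed := by
  intro x hx
  simp only [dF, Fm.iff, Fm.and, Fm.neg, Fm.Free, or_false] at hx
  obtain ⟨h0, h1, hx⟩ := hx
  have : x < 2 := by
    rcases hx with (hx | hx) | hx | hx
    · omega
    · exact h x hx
    · exact h x hx
    · omega
  omega

theorem bwd {α : (LE f s).Sentence} {β : (LE f t).Sentence} {a0 Fx χ Ro : Fml}
    (hα : ∀ (M : Type) (_ : Nonempty M) (A : (LE f s).Structure M),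
      @Sentence.Realize (LE f s) M A α → PAM A)
    (ha0c : a0.Closed) (hFxc : Fx.Closed) (hχc : χ.Closed)
    (ha0 : ∀ (G : GS f) (v : ℕ → G.S.M),
      Fm.Sat G.S a0 v ↔ @Sentence.Realize (LE f s) G.S.M (toM G s 0) α)
    (hFx : ∀ (X : QS) (v : ℕ → X.S.M), Fm.Sat X.S Fx v ↔ FxT f X)
    (hχ : ∀ (G : GS f) (v : ℕ → G.S.M),
      Fm.Sat G.S χ v ↔ @Sentence.Realize (LE f t) G.S.M (toM G t 2) β)
    (h1 : OpB 0 Ro) (h2 : ∀ x, Ro.Free x → x = 2) {c i : ℕ}
    (h : NN α β Ro c i) : Rr (tF Ro) (a0 :: Fx :: robinson) χ c i := by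
  obtain ⟨τ, hτ⟩ := h
  -- the formula
  have hdd : DD 2 (gS f) (β := Fin 2) (fun G w => ∃ (j : Fin t.length) (x : Fin (t.get j) → G.S.M),
      w 0 = (opsQ G.q).nm j ∧ w 1 = (opsQ G.q).tup x ∧
        @Formula.Realize (LE f s) _ (toM G s 0) _ (τ j) x) := by
    refine DD.exFin t.length (fun j (G : GS f) (w : Fin 2 → G.S.M) =>
      ∃ (x : Fin (t.get j) → G.S.M), w 0 = (opsQ G.q).nm j ∧ w 1 = (opsQ G.q).tup x ∧
        @Formula.Realize (LE f s) _ (toM G s 0) _ (τ j) x) fun j => ?_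
    refine DD.exTuple (t.get j) (R := fun (G : GS f) (w : Fin 2 → G.S.M) x =>
      w 0 = (opsQ G.q).nm j ∧ w 1 = (opsQ G.q).tup x ∧
        @Formula.Realize (LE f s) _ (toM G s 0) _ (τ j) x) ?_
    refine (DD.qnm (gq f) _ (Sum.inl 0)).and ((DD.qtup (gq f) _ (Sum.inl 1) Sum.inr).and ?_)
    have h3 := (dd_form (f := f) (s := s) (k := 0) (B := 2) (by norm_num) (by norm_num) (τ j)).map
      (fun e : Fin (t.get j) ⊕ Fin 0 => e.elim (fun i => (Sum.inr i : Fin 2 ⊕ Fin (t.get j)))
        (fun i => i.elim0))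
    refine h3.of_iff fun G w => ?_
    show @BoundedFormula.Realize (LE f s) _ (toM G s 0) _ _ (τ j) _ _ ↔
      @BoundedFormula.Realize (LE f s) _ (toM G s 0) _ _ (τ j) _ _
    have e2 : ∀ y z : Fin 0 → G.S.M, y = z := fun _ _ => Subsingleton.elim _ _
    rw [e2 (fun i : Fin 0 => w (((fun e : Fin (t.get j) ⊕ Fin 0 =>
      e.elim (fun i => (Sum.inr i : Fin 2 ⊕ Fin (t.get j))) (fun i => i.elim0))
        (Sum.inr i)))) default]
    exact Iff.rfl
  obtain ⟨φ, hφ1, hφ2, hφ3⟩ := hdd (fun i => i)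
  have hok : Ok φ := ⟨fun x hx => by
    obtain ⟨b, hb⟩ := hφ2 x hx
    rw [← hb]
    exact b.2, hφ1⟩
  refine ⟨φ, hok, ?_⟩
  refine Pool.Agent.TH690.J100.completeness _ χ ?_ hχc ?_
  · intro ψ hψ
    rcases List.mem_cons.1 hψ with rfl | hψ
    · exact closed_dF hok.1
    · rcases List.mem_cons.1 hψ with rfl | hψ
      · exact closed_T h2 c i
      · rcases List.mem_cons.1 hψ with rfl | hψ
        · exact ha0c
        · rcases List.mem_cons.1 hψ with rfl | hψ
          · exact hFxc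
          · exact TH838.J1549.closed_robinson ψ hψ
  · intro S v hS
    obtain ⟨q⟩ := TH838.J1549.exists_Q v fun ψ hψ => hS ψ (by simp [Sx, hψ])
    have hF : FxT f ⟨S, q⟩ := (hFx ⟨S, q⟩ v).1 (hS Fx (by simp [Sx]))
    choose F hF using hF
    let G : GS f := ⟨S, q, F, fun j x y => hF j x y⟩
    have hA : @Sentence.Realize (LE f s) G.S.M (toM G s 0) α := (ha0 G v).1 (hS a0 (by simp [Sx]))
    have hP : PAM (toM G s 0) := hα _ G.S.ne _ hA
    have hT := (sat_T h2 q c i v).1 (hS _ (by simp [Sx]))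
    rw [sat_RoM h1 h2 c q] at hT
    have hops := opsA_toM G s 0
    have h4 := hτ G.S.M G.S.ne (toM G s 0) hA (by rw [hops]; exact hT)
    have hd : ∀ a b : S.M, S.op 2 a b b b ↔ Fm.Sat S φ (upd (upd v 0 a) 1 b) := by
      intro a b
      have := hS (dF φ) (by simp) a b
      rw [Fm.sat_iff] at this
      exact this
    have e : toM G t 2 = pull τ G.S.M (toM G s 0) := by
      refine str_ext ?_ (fun _ => Iff.rfl) fun j x => ?_
      · intro n F x
        cases F <;> rfl
      · show S.op 2 ((opsQ q).nm j) ((opsQ q).tup x) ((opsQ q).tup x) ((opsQ q).tup x) ↔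
          @Formula.Realize (LE f s) _ (toM G s 0) _ (τ j) x
        rw [hd]
        refine (hφ3 G _).trans ?_
        have e3 := hP.code (fun j x => @Formula.Realize (LE f s) _ (toM G s 0) _ (τ j) x) j x
        rw [hops] at e3
        exact e3
    rw [hχ G v, e]
    exact h4

end Pool.Agent.Helper26_DEF
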