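import Pool.Agent.Helper26_DEF.DD

/-!
# Good structures; the formulas of the extended languages are definable in them
-/

set_option autoImplicit false

namespace Pool.Agent.Helper26_DEF

open FirstOrder FirstOrder.Language
open Pool.Agent.TH672 (Fm Str upd Pv LogK)
open Pool.Agent.TH636.BC (Fml inst robinson Arith)
open Pool.Agent.TH838.J1549 (Q)
open Pool.Agent.Helper364_SP (OpB)

/-- Models of Robinson arithmetic such that the symbol `op 1` codes functions of the arities `f`. -/
structure GS (f : List ℕ) where
  /-- the structure -/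
  S : Str ℕ
  /-- the arithmetical operations -/
  q : Q S
  /-- the functions -/
  F : ∀ j : Fin f.length, (Fin (f.get j) → S.M) → S.M
  hF : ∀ (j : Fin f.length) (x : Fin (f.get j) → S.M) (y : S.M),
    S.op 1 ((opsQ q).nm j) ((opsQ q).tup x) y y ↔ y = F j x

/-- the structures -/
abbrev gS (f : List ℕ) : GS f → Str ℕ := fun G => G.S

/-- the operations -/
abbrev gq (f : List ℕ) : ∀ G : GS f, Q (gS f G) := fun G => G.q

variable {f : List ℕ}

/-- The `LE f s`-structure; the symbol `op k` codes the new relations. -/
@[reducible] def toM (G : GS f) (s : List ℕ) (k : ℕ) : (LE f s).Structure G.S.M where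
  funMap {n} F x := match n, F, x with
    | _, .zero, _ => G.q.o
    | _, .one, _ => G.q.s G.q.o
    | _, .add, x => G.q.a (x 0) (x 1)
    | _, .mul, x => G.q.m (x 0) (x 1)
    | _, .ext j, x => G.F j x
  RelMap {n} R x := match n, R, x with
    | _, .inl .lt, x => ∃ z, G.q.a z (G.q.s (x 0)) = x 1
    | _, .inr (.sym j), x => G.S.op k ((opsQ G.q).nm j) ((opsQ G.q).tup x) ((opsQ G.q).tup x)
        ((opsQ G.q).tup x)

variable {B k : ℕ} {s : List ℕ}

theorem dd_fun (hB : 1 < B) {n : ℕ} (F : ArFun f n) {β : Type} [Finite β] (a : β) (g : Fin n → β) :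
    DD B (gS f) (fun G w =>
      w a = @Structure.funMap (LE f s) _ (toM G s k) n F (fun j => w (g j))) := by
  cases F with
  | zero => exact DD.qo (gq f) a
  | one =>
    refine (DD.ex (R := fun (G : GS f) (w : β → G.S.M) x => x = G.q.o ∧ w a = G.q.s x)
      ((DD.qo (gq f) none).and (DD.qs (gq f) (some a) none))).of_iff
      fun G w => ?_
    simp only [exists_eq_left]
    exact Iff.rfl
  | add => exact DD.qa (gq f) a (g 0) (g 1)
  | mul => exact DD.qm (gq f) a (g 0) (g 1)
  | ext j =>
    refine (DD.ex (R := fun (G : GS f) (w : β → G.S.M) x => x = (opsQ G.q).nm j ∧ ∃ y,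
      y = (opsQ G.q).tup (fun i => w (g i)) ∧ G.S.op 1 x y (w a) (w a))
      ((DD.qnm (gq f) _ none).and
        (DD.ex (R := fun (G : GS f) (w : Option β → G.S.M) y =>
          y = (opsQ G.q).tup (fun i => w (some (g i))) ∧
            G.S.op 1 (w none) y (w (some a)) (w (some a)))
          ((DD.qtup (gq f) _ none (fun i => some (some (g i)))).and
            (DD.op 1 (some none) none (some (some a)) (some (some a)) hB))))).of_iff
      fun G w => ?_
    simp only [exists_eq_left]
    exact G.hF j (fun i => w (g i)) (w a)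

theorem dd_rel (hB : k < B) {n : ℕ} (R : ArRel n ⊕ NewRel s n) {β : Type} [Finite β]
    (g : Fin n → β) :
    DD B (gS f) (fun G w =>
      @Structure.RelMap (LE f s) _ (toM G s k) n R (fun j => w (g j))) := by
  rcases R with R | R
  · cases R with
    | lt =>
      refine (DD.ex (R := fun (G : GS f) (w : β → G.S.M) z => ∃ y, y = G.q.s (w (g 0)) ∧
        w (g 1) = G.q.a z y)
        (DD.ex (R := fun (G : GS f) (w : Option β → G.S.M) y => y = G.q.s (w (some (g 0))) ∧
          w (some (g 1)) = G.q.a (w none) y)
          ((DD.qs (gq f) none (some (some (g 0)))).and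
            (DD.qa (gq f) (some (some (g 1))) (some none) none)))).of_iff fun G w => ?_
      simp only [exists_eq_left]
      exact exists_congr fun z => eq_comm
  · cases R with
    | sym j =>
      refine (DD.ex (R := fun (G : GS f) (w : β → G.S.M) x => x = (opsQ G.q).nm j ∧ ∃ y,
        y = (opsQ G.q).tup (fun i => w (g i)) ∧ G.S.op k x y y y)
        ((DD.qnm (gq f) _ none).and
          (DD.ex (R := fun (G : GS f) (w : Option β → G.S.M) y =>
            y = (opsQ G.q).tup (fun i => w (some (g i))) ∧
              G.S.op k (w none) y y y)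
            ((DD.qtup (gq f) _ none (fun i => some (some (g i)))).and
              (DD.op k (some none) none none none hB))))).of_iff
        fun G w => ?_
      simp only [exists_eq_left]
      exact Iff.rfl

theorem dd_term (hB : 1 < B) {γ : Type} [Finite γ] (t : (LE f s).Term γ) :
    DD B (gS f) (fun G (w : Option γ → G.S.M) =>
      w none = @Term.realize (LE f s) _ (toM G s k) _ (fun c => w (some c)) t) := by
  induction t with
  | var c => exact DD.eq none (some c)
  | func F ts ih =>
    rename_i l
    refine (DD.exTuple l (R := fun (G : GS f) (w : Option γ → G.S.M) u =>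
      (∀ i, u i = @Term.realize (LE f s) _ (toM G s k) _ (fun c => w (some c)) (ts i)) ∧
        w none = @Structure.funMap (LE f s) _ (toM G s k) l F u) ?_).of_iff fun G w => ?_
    · refine (DD.allFin l (fun i (G : GS f) (w : Option γ ⊕ Fin l → G.S.M) =>
        w (Sum.inr i) = @Term.realize (LE f s) _ (toM G s k) _
          (fun c => w (Sum.inl (some c))) (ts i)) fun i => ?_).and
          (dd_fun hB F (Sum.inl none) Sum.inr)
      exact (ih i).map (fun o => o.elim (Sum.inr i) (fun c => Sum.inl (some c)))
    · constructor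
      · rintro ⟨u, h1, h2⟩
        rw [h2]
        show _ = @Structure.funMap (LE f s) _ (toM G s k) l F
          (fun i => @Term.realize (LE f s) _ (toM G s k) _ (fun c => w (some c)) (ts i))
        congr 1
        funext i
        exact h1 i
      · intro h
        exact ⟨_, fun i => rfl, h⟩

theorem dd_form (hB : 1 < B) (hk : k < B) {γ : Type} [Finite γ] {n : ℕ}
    (φ : (LE f s).BoundedFormula γ n) :
    DD B (gS f) (fun G (w : γ ⊕ Fin n → G.S.M) =>
      @BoundedFormula.Realize (LE f s) _ (toM G s k) _ _ φ (fun c => w (Sum.inl c))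
        (fun i => w (Sum.inr i))) := by
  have key : ∀ {n : ℕ} (G : GS f) (w : γ ⊕ Fin n → G.S.M),
      Sum.elim (fun c => w (Sum.inl c)) (fun i => w (Sum.inr i)) = w := by
    intro n G w
    funext a
    rcases a with a | a <;> rfl
  induction φ with
  | falsum => exact DD.false'
  | equal t₁ t₂ =>
    rename_i n
    refine (DD.ex (R := fun (G : GS f) (w : γ ⊕ Fin n → G.S.M) x =>
      x = @Term.realize (LE f s) _ (toM G s k) _ w t₁ ∧
        x = @Term.realize (LE f s) _ (toM G s k) _ w t₂)
      ((dd_term hB t₁).and (dd_term hB t₂))).of_iff fun G w => ?_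
    simp only [exists_eq_left]
    show _ ↔ @Term.realize (LE f s) _ (toM G s k) _ (Sum.elim (fun c => w (Sum.inl c))
      (fun i => w (Sum.inr i))) t₁ = @Term.realize (LE f s) _ (toM G s k) _
        (Sum.elim (fun c => w (Sum.inl c)) (fun i => w (Sum.inr i))) t₂
    rw [key]
  | rel R ts =>
    rename_i n l
    refine (DD.exTuple l (R := fun (G : GS f) (w : γ ⊕ Fin n → G.S.M) u =>
      (∀ i, u i = @Term.realize (LE f s) _ (toM G s k) _ w (ts i)) ∧
        @Structure.RelMap (LE f s) _ (toM G s k) l R u) ?_).of_iff fun G w => ?_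
    · refine (DD.allFin l (fun i (G : GS f) (w : (γ ⊕ Fin n) ⊕ Fin l → G.S.M) =>
        w (Sum.inr i) = @Term.realize (LE f s) _ (toM G s k) _
          (fun c => w (Sum.inl c)) (ts i)) fun i => ?_).and
          (dd_rel hk R Sum.inr)
      exact (dd_term hB (ts i)).map (fun o => o.elim (Sum.inr i) (fun c => Sum.inl c))
    · show _ ↔ @Structure.RelMap (LE f s) _ (toM G s k) l R
        (fun i => @Term.realize (LE f s) _ (toM G s k) _
          (Sum.elim (fun c => w (Sum.inl c)) (fun i => w (Sum.inr i))) (ts i))
      rw [key]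
      constructor
      · rintro ⟨u, h1, h2⟩
        have : (fun i => @Term.realize (LE f s) _ (toM G s k) _ w (ts i)) = u := by
          funext i
          exact (h1 i).symm
        rw [this]
        exact h2
      · intro h
        exact ⟨_, fun i => rfl, h⟩
  | imp φ ψ ih₁ ih₂ => exact ih₁.imp ih₂
  | all φ ih =>
    rename_i n
    let g : γ ⊕ Fin (n + 1) → Option (γ ⊕ Fin n) :=
      Sum.elim (fun a => some (Sum.inl a))
        (fun i => Fin.lastCases (motive := fun _ => Option (γ ⊕ Fin n)) none
          (fun j => some (Sum.inr j)) i)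
    have h1 := DD.map ih g
    refine DD.all (R := fun (G : GS f) (w : γ ⊕ Fin n → G.S.M) a =>
      @BoundedFormula.Realize (LE f s) _ (toM G s k) _ _ φ (fun a => w (Sum.inl a))
      (Fin.snoc (α := fun _ => G.S.M) (fun i => w (Sum.inr i)) a)) (h1.of_iff fun G w => ?_)
    have : (fun i => w (g (Sum.inr i))) =
        Fin.snoc (α := fun _ => G.S.M) (fun i => w (some (Sum.inr i))) (w none) := by
      funext i
      refine Fin.lastCases ?_ (fun j => ?_) i
      · simp [g]
      · simp [g]
    rw [this]
    exact Iff.rfl

end Pool.Agent.Helper26_DEF
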