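import Pool.Agent.Helper26_DEF.Round

/-!
# The formulas of the library are definable in the structures for the extended language
-/

set_option autoImplicit false

namespace Pool.Agent.Helper26_DEF

open FirstOrder FirstOrder.Language
open Pool.Agent.TH672 (Fm Str upd Pv LogK)
open Pool.Agent.TH636.BC (Fml inst robinson Arith)
open Pool.Agent.TH838.J1549 (Q)
open Pool.Agent.Helper364_SP (OpB)

variable {f s : List ℕ}

/-- The relation is defined by a formula in all structures for the language `LE f s` that satisfy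
`PA⁻`. -/
def ML (f s : List ℕ) (γ : Type)
    (R : ∀ (M : Type) (_ : Nonempty M) (_ : (LE f s).Structure M), (γ → M) → Prop) : Prop :=
  ∃ ψ : (LE f s).Formula γ, ∀ (M : Type) (hM : Nonempty M) (A : (LE f s).Structure M), PAM A →
    ∀ v : γ → M, @Formula.Realize (LE f s) M A γ ψ v ↔ R M hM A v

namespace ML

variable {γ δ : Type}

theorem of_iff {R R' : ∀ (M : Type) (_ : Nonempty M) (_ : (LE f s).Structure M), (γ → M) → Prop}
    (h : ML f s γ R) (hR : ∀ M hM A v, PAM A → (R M hM A v ↔ R' M hM A v)) : ML f s γ R' := by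
  obtain ⟨ψ, hψ⟩ := h
  exact ⟨ψ, fun M hM A hA v => (hψ M hM A hA v).trans (hR M hM A v hA)⟩

theorem false' : ML f s γ (fun _ _ _ _ => False) := ⟨⊥, fun _ _ _ _ _ => Iff.rfl⟩

theorem imp {R R' : ∀ (M : Type) (_ : Nonempty M) (_ : (LE f s).Structure M), (γ → M) → Prop}
    (h : ML f s γ R) (h' : ML f s γ R') : ML f s γ (fun M hM A v => R M hM A v → R' M hM A v) := by
  obtain ⟨ψ, hψ⟩ := h
  obtain ⟨ψ', hψ'⟩ := h'
  refine ⟨ψ.imp ψ', fun M hM A hA v => ?_⟩
  exact imp_congr (hψ M hM A hA v) (hψ' M hM A hA v)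

theorem not {R : ∀ (M : Type) (_ : Nonempty M) (_ : (LE f s).Structure M), (γ → M) → Prop}
    (h : ML f s γ R) : ML f s γ (fun M hM A v => ¬ R M hM A v) := h.imp false'

theorem and {R R' : ∀ (M : Type) (_ : Nonempty M) (_ : (LE f s).Structure M), (γ → M) → Prop}
    (h : ML f s γ R) (h' : ML f s γ R') : ML f s γ (fun M hM A v => R M hM A v ∧ R' M hM A v) :=
  (h.imp h'.not).not.of_iff fun _ _ _ _ _ => by tauto

theorem map {R : ∀ (M : Type) (_ : Nonempty M) (_ : (LE f s).Structure M), (γ → M) → Prop}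
    (h : ML f s γ R) (g : γ → δ) : ML f s δ (fun M hM A v => R M hM A (fun c => v (g c))) := by
  obtain ⟨ψ, hψ⟩ := h
  refine ⟨ψ.relabel g, fun M hM A hA v => ?_⟩
  rw [@Formula.realize_relabel (LE f s) M A]
  exact hψ M hM A hA _

theorem forallFin {m : ℕ}
    {R : Fin m → ∀ (M : Type) (_ : Nonempty M) (_ : (LE f s).Structure M), (γ → M) → Prop}
    (h : ∀ i, ML f s γ (R i)) : ML f s γ (fun M hM A v => ∀ i, R i M hM A v) := by
  choose ψ hψ using h
  refine ⟨Formula.iInf ψ, fun M hM A hA v => ?_⟩
  rw [@Formula.realize_iInf (LE f s) M A]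
  exact forall_congr' fun i => hψ i M hM A hA v

theorem existsFin {m : ℕ}
    {R : Fin m → ∀ (M : Type) (_ : Nonempty M) (_ : (LE f s).Structure M), (γ → M) → Prop}
    (h : ∀ i, ML f s γ (R i)) : ML f s γ (fun M hM A v => ∃ i, R i M hM A v) :=
  (forallFin fun i => (h i).not).not.of_iff fun _ _ _ _ _ => by simp

theorem exT {m : ℕ}
    {R : ∀ (M : Type) (_ : Nonempty M) (_ : (LE f s).Structure M), (γ → M) → (Fin m → M) → Prop}
    (h : ML f s (γ ⊕ Fin m) (fun M hM A v => R M hM A (fun c => v (Sum.inl c))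
      (fun c => v (Sum.inr c)))) :
    ML f s γ (fun M hM A v => ∃ x, R M hM A v x) := by
  obtain ⟨ψ, hψ⟩ := h
  refine ⟨Formula.iExs (Fin m) ψ, fun M hM A hA v => ?_⟩
  rw [@Formula.realize_iExs (LE f s) M A]
  exact exists_congr fun x => hψ M hM A hA (Sum.elim v x)

theorem ex
    {R : ∀ (M : Type) (_ : Nonempty M) (_ : (LE f s).Structure M), (γ → M) → M → Prop}
    (h : ML f s (Option γ) (fun M hM A v => R M hM A (fun c => v (some c)) (v none))) :
    ML f s γ (fun M hM A v => ∃ x, R M hM A v x) := by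
  have h1 := h.map (fun o : Option γ => (o.elim (Sum.inr 0) Sum.inl : γ ⊕ Fin 1))
  refine (exT (R := fun M hM A v (x : Fin 1 → M) => R M hM A v (x 0)) h1).of_iff
    fun M hM A v _ => ?_
  constructor
  · rintro ⟨x, hx⟩
    exact ⟨x 0, hx⟩
  · rintro ⟨x, hx⟩
    exact ⟨fun _ => x, hx⟩

theorem all
    {R : ∀ (M : Type) (_ : Nonempty M) (_ : (LE f s).Structure M), (γ → M) → M → Prop}
    (h : ML f s (Option γ) (fun M hM A v => R M hM A (fun c => v (some c)) (v none))) :
    ML f s γ (fun M hM A v => ∀ x, R M hM A v x) :=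
  (ex (R := fun M hM A v x => ¬ R M hM A v x) h.not).not.of_iff fun _ _ _ _ _ => by
    simp

theorem eqT (t u : (LE f s).Term γ) : ML f s γ (fun M _ A v =>
    @Term.realize (LE f s) M A _ v t = @Term.realize (LE f s) M A _ v u) :=
  ⟨t.equal u, fun M _ A _ v => by rw [@Formula.realize_equal (LE f s) M A]⟩

theorem relT {n : ℕ} (R : ArRel n ⊕ NewRel s n) (t : Fin n → (LE f s).Term γ) :
    ML f s γ (fun M _ A v =>
      @Structure.RelMap (LE f s) M A n R (fun i => @Term.realize (LE f s) M A _ v (t i))) :=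
  ⟨Relations.formula (L := LE f s) (n := n) R t, fun M _ A _ v => by
    rw [@Formula.realize_rel (LE f s) M A]⟩

end ML

/-! ### Terms -/

section terms

variable {γ : Type}

/-- sum -/
def adT (t u : (LE f s).Term γ) : (LE f s).Term γ := .func (l := 2) (ArFun.add : ArFun f 2) ![t, u]

/-- product -/
def muT (t u : (LE f s).Term γ) : (LE f s).Term γ := .func (l := 2) (ArFun.mul : ArFun f 2) ![t, u]

/-- zero -/
def zrT : (LE f s).Term γ := .func (l := 0) (ArFun.zero : ArFun f 0) fun i => i.elim0

/-- one -/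
def onT : (LE f s).Term γ := .func (l := 0) (ArFun.one : ArFun f 0) fun i => i.elim0

/-- pair -/
def prT (t u : (LE f s).Term γ) : (LE f s).Term γ := adT (muT (adT t u) (adT t u)) t

/-- tuple -/
def tupT : ∀ {n : ℕ}, (Fin n → (LE f s).Term γ) → (LE f s).Term γ
  | 0, _ => zrT
  | _ + 1, t => prT (t 0) (tupT fun i => t i.succ)

variable (M : Type) (A : (LE f s).Structure M) (v : γ → M)

theorem realize_zrT : @Term.realize (LE f s) M A _ v zrT = (opsA A).o := by
  show @Structure.funMap (LE f s) M A 0 (ArFun.zero : ArFun f 0) _ =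
    @Structure.funMap (LE f s) M A 0 (ArFun.zero : ArFun f 0) _
  congr 1
  exact Subsingleton.elim _ _

theorem realize_adT (t u : (LE f s).Term γ) : @Term.realize (LE f s) M A _ v (adT t u) =
    (opsA A).a (@Term.realize (LE f s) M A _ v t) (@Term.realize (LE f s) M A _ v u) := by
  show @Structure.funMap (LE f s) M A 2 (ArFun.add : ArFun f 2) _ =
    @Structure.funMap (LE f s) M A 2 (ArFun.add : ArFun f 2) _
  congr 1
  funext i
  fin_cases i <;> rfl

theorem realize_muT (t u : (LE f s).Term γ) : @Term.realize (LE f s) M A _ v (muT t u) =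
    (opsA A).m (@Term.realize (LE f s) M A _ v t) (@Term.realize (LE f s) M A _ v u) := by
  show @Structure.funMap (LE f s) M A 2 (ArFun.mul : ArFun f 2) _ =
    @Structure.funMap (LE f s) M A 2 (ArFun.mul : ArFun f 2) _
  congr 1
  funext i
  fin_cases i <;> rfl

theorem realize_sT (t : (LE f s).Term γ) : @Term.realize (LE f s) M A _ v (adT t onT) =
    (opsA A).s (@Term.realize (LE f s) M A _ v t) := by
  rw [realize_adT]
  show @ad f M (red A) _ _ = @ad f M (red A) _ (@on f M (red A))
  congr 1
  show @Structure.funMap (LE f s) M A 0 (ArFun.one : ArFun f 0) _ =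
    @Structure.funMap (LE f s) M A 0 (ArFun.one : ArFun f 0) _
  congr 1
  exact Subsingleton.elim _ _

theorem realize_numeral : ∀ n : ℕ,
    @Term.realize (LE f s) M A _ v (numeral f s n) = (opsA A).nm n
  | 0 => realize_zrT M A v
  | n + 1 => by
    have h := realize_sT M A v (numeral f s n)
    rw [realize_numeral n] at h
    exact h

theorem realize_prT (t u : (LE f s).Term γ) : @Term.realize (LE f s) M A _ v (prT t u) =
    (opsA A).pr (@Term.realize (LE f s) M A _ v t) (@Term.realize (LE f s) M A _ v u) := by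
  unfold prT
  rw [realize_adT, realize_muT, realize_adT]
  rfl

theorem realize_tupT : ∀ {n : ℕ} (t : Fin n → (LE f s).Term γ),
    @Term.realize (LE f s) M A _ v (tupT t) =
      (opsA A).tup (fun i => @Term.realize (LE f s) M A _ v (t i))
  | 0, _ => realize_zrT M A v
  | n + 1, t => by
    unfold tupT
    rw [realize_prT, realize_tupT fun i => t i.succ]
    rfl

end terms

/-! ### Formulas of the library -/

namespace ML

theorem sat : ∀ (φ : Fml) (_ : OpB 2 φ) {γ : Type} (g : ℕ → γ),
    ML f s γ (fun M hM A v => Fm.Sat (toS hM A fun _ _ => False) φ (fun x => v (g x)))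
  | .bot, _, _, _ => false'
  | .eq x y, _, _, g => eqT (.var (g x)) (.var (g y))
  | .zero x, _, _, g => (eqT (.var (g x)) zrT).of_iff fun M hM A v _ => by
      rw [realize_zrT]
      exact Iff.rfl
  | .succ x y, _, _, g => (eqT (.var (g y)) (adT (.var (g x)) onT)).of_iff fun M hM A v _ => by
      rw [realize_sT]
      exact Iff.rfl
  | .add x y z, _, _, g => (eqT (.var (g z)) (adT (.var (g x)) (.var (g y)))).of_iff
      fun M hM A v _ => by
        rw [realize_adT]
        exact Iff.rfl
  | .mul x y z, _, _, g => (eqT (.var (g z)) (muT (.var (g x)) (.var (g y)))).of_iff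
      fun M hM A v _ => by
        rw [realize_muT]
        exact Iff.rfl
  | .op 0 a b c d, _, γ, g => by
      refine existsFin (R := fun (j : Fin s.length) M _ A v => ∃ (x : Fin (s.get j) → M),
        v (g a) = (opsA A).nm j ∧ v (g b) = (opsA A).tup x ∧
          @Structure.RelMap (LE f s) M A _ (Sum.inr (.sym j)) x) fun j => ?_
      refine exT (R := fun M _ A v (x : Fin (s.get j) → M) =>
        v (g a) = (opsA A).nm j ∧ v (g b) = (opsA A).tup x ∧
          @Structure.RelMap (LE f s) M A _ (Sum.inr (.sym j)) x) ?_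
      refine ((eqT (.var (Sum.inl (g a))) (numeral f s j)).and
        ((eqT (.var (Sum.inl (g b))) (tupT fun i => .var (Sum.inr i))).and
          (relT (Sum.inr (.sym j)) (fun i => .var (Sum.inr i))))).of_iff fun M hM A v _ => ?_
      rw [realize_numeral, realize_tupT]
      exact Iff.rfl
  | .op 1 a b c d, _, γ, g => by
      refine existsFin (R := fun (j : Fin f.length) M _ A v => ∃ (x : Fin (f.get j) → M),
        v (g a) = (opsA A).nm j ∧ v (g b) = (opsA A).tup x ∧
          v (g c) = @Structure.funMap (LE f s) M A _ (ArFun.ext j : ArFun f _) x) fun j => ?_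
      refine exT (R := fun M _ A v (x : Fin (f.get j) → M) =>
        v (g a) = (opsA A).nm j ∧ v (g b) = (opsA A).tup x ∧
          v (g c) = @Structure.funMap (LE f s) M A _ (ArFun.ext j : ArFun f _) x) ?_
      refine ((eqT (.var (Sum.inl (g a))) (numeral f s j)).and
        ((eqT (.var (Sum.inl (g b))) (tupT fun i => .var (Sum.inr i))).and
          (eqT (.var (Sum.inl (g c))) (.func (l := f.get j) (ArFun.ext j : ArFun f _)
            fun i => .var (Sum.inr i))))).of_iff fun M hM A v _ => ?_
      rw [realize_numeral, realize_tupT]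
      exact Iff.rfl
  | .op (i + 2) a b c d, h, _, _ => by
      exfalso
      have h : i + 2 < 2 := h
      omega
  | .imp φ ψ, h, _, g => (sat φ h.1 g).imp (sat ψ h.2 g)
  | .all x φ, h, γ, g => by
    refine ML.all (R := fun M hM A v a => Fm.Sat (toS hM A fun _ _ => False) φ
      (upd (fun x => v (g x)) x a)) ?_
    refine (sat φ h (γ := Option γ) (fun y => if y = x then none else some (g y))).of_iff ?_
    intro M hM A v _
    have : (fun y => v (if y = x then none else some (g y))) =
        upd (fun x => v (some (g x))) x (v none) := by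
      funext y
      unfold upd
      split_ifs <;> rfl
    rw [this]

end ML

/-- Formulas without other symbols do not depend on their meaning. -/
theorem sat_toS {M : Type} (hM : Nonempty M) (A : (LE f s).Structure M) (X Y : M → M → Prop) :
    ∀ (φ : Fml), OpB 2 φ → ∀ v : ℕ → M, Fm.Sat (toS hM A X) φ v ↔ Fm.Sat (toS hM A Y) φ v
  | .bot, _, _ => Iff.rfl
  | .eq _ _, _, _ => Iff.rfl
  | .zero _, _, _ => Iff.rfl
  | .succ _ _, _, _ => Iff.rfl
  | .add _ _ _, _, _ => Iff.rfl
  | .mul _ _ _, _, _ => Iff.rfl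
  | .op 0 _ _ _ _, _, _ => Iff.rfl
  | .op 1 _ _ _ _, _, _ => Iff.rfl
  | .op (i + 2) _ _ _ _, h, _ => by
      exfalso
      have h : i + 2 < 2 := h
      omega
  | .imp φ ψ, h, v => imp_congr (sat_toS hM A X Y φ h.1 v) (sat_toS hM A X Y ψ h.2 v)
  | .all x φ, h, v => forall_congr' fun a => sat_toS hM A X Y φ h (upd v x a)

end Pool.Agent.Helper26_DEF
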