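import Pool.Agent.Helper26_DEF.Equiv

/-!
# The order of the definitions of truth is dense
-/

set_option autoImplicit false

namespace Pool.Agent.Helper26_DEF

open FirstOrder FirstOrder.Language
open Pool.Agent.TH672 (Fm Str upd Pv LogK)
open Pool.Agent.TH636.BC (Fml inst robinson Arith)
open Pool.Agent.TH838.J1549 (Q)
open Pool.Agent.Helper364_SP (OpB Hal HalRep as3)

variable {f s t u : List ℕ}

/-! ### Merging of translations -/

/-- definition by cases -/
theorem merge {α : (LE f s).Sentence} {β : (LE f t).Sentence} {Ro : Fml} {c : ℕ}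
    (hα : ∀ (M : Type) (_ : Nonempty M) (A : (LE f s).Structure M),
      @Sentence.Realize (LE f s) M A α → PAM A)
    (h1 : OpB 0 Ro) (h2 : ∀ x, Ro.Free x → x = 2)
    (h : NN α β Ro c 0) (h' : NN α β Ro c 1) : Defines α β := by
  classical
  obtain ⟨Φ, hΦ⟩ := exPhi f s h1 h2 c
  obtain ⟨τ, hτ⟩ := h
  obtain ⟨τ', hτ'⟩ := h'
  let ρ : Trans f t s := fun i =>
    ((Formula.relabel (fun e : Empty => (e.elim : Fin (t.get i))) Φ).imp (τ i)) ⊓
      ((Formula.relabel (fun e : Empty => (e.elim : Fin (t.get i))) Φ).not.imp (τ' i))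
  refine ⟨ρ, prov_iff.2 fun M hM A hA => ?_⟩
  rw [realize_tr_sentence]
  have hP := hα M hM A hA
  have hrel : ∀ (i : Fin t.length) (x : Fin (t.get i) → M),
      @Formula.Realize (LE f s) M A _ (Formula.relabel (fun e : Empty =>
        (e.elim : Fin (t.get i))) Φ) x ↔ @Sentence.Realize (LE f s) M A Φ := by
    intro i x
    rw [@Formula.realize_relabel (LE f s) M A]
    show @Formula.Realize (LE f s) M A _ Φ _ ↔ @Formula.Realize (LE f s) M A _ Φ default
    have e : ∀ y : Empty → M, y = default := fun y => Subsingleton.elim _ _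
    rw [e (x ∘ fun e : Empty => (e.elim : Fin (t.get i)))]
  have hρ : ∀ (i : Fin t.length) (x : Fin (t.get i) → M),
      @Formula.Realize (LE f s) M A _ (ρ i) x ↔
        ((@Sentence.Realize (LE f s) M A Φ → @Formula.Realize (LE f s) M A _ (τ i) x) ∧
        (¬ @Sentence.Realize (LE f s) M A Φ → @Formula.Realize (LE f s) M A _ (τ' i) x)) := by
    intro i x
    show @Formula.Realize (LE f s) M A _ (((Formula.relabel (fun e : Empty =>
      (e.elim : Fin (t.get i))) Φ).imp (τ i)) ⊓ ((Formula.relabel (fun e : Empty =>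
        (e.elim : Fin (t.get i))) Φ).not.imp (τ' i))) x ↔ _
    rw [@Formula.realize_inf (LE f s) M A, @Formula.realize_imp (LE f s) M A,
      @Formula.realize_imp (LE f s) M A, @Formula.realize_not (LE f s) M A, hrel]
  by_cases hc : RoM Ro c hM (opsA A)
  · have hs := (hΦ M hM A hP).2 hc
    have e : pull ρ M A = pull τ M A := by
      refine str_ext (fun _ _ _ => rfl) (fun _ => Iff.rfl) fun i x => ?_
      show @Formula.Realize (LE f s) M A _ (ρ i) x ↔ @Formula.Realize (LE f s) M A _ (τ i) x
      rw [hρ]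
      exact ⟨fun h => h.1 hs, fun h => ⟨fun _ => h, fun h' => absurd hs h'⟩⟩
    rw [e]
    exact hτ M hM A hA ⟨fun _ => hc, fun h => absurd rfl h⟩
  · have hs : ¬ @Sentence.Realize (LE f s) M A Φ := fun h => hc ((hΦ M hM A hP).1 h)
    have e : pull ρ M A = pull τ' M A := by
      refine str_ext (fun _ _ _ => rfl) (fun _ => Iff.rfl) fun i x => ?_
      show @Formula.Realize (LE f s) M A _ (ρ i) x ↔ @Formula.Realize (LE f s) M A _ (τ' i) x
      rw [hρ]
      exact ⟨fun h => h.2 hs, fun h => ⟨fun h' => absurd h' hs, fun _ => h⟩⟩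
    rw [e]
    exact hτ' M hM A hA ⟨fun h => absurd h one_ne_zero, fun _ => hc⟩

/-- Existence of the arithmetical sentence. -/
theorem exists_rosser (α : (LE f s).Sentence) (β : (LE f t).Sentence)
    (hα : ∀ (M : Type) (_ : Nonempty M) (A : (LE f s).Structure M),
      @Sentence.Realize (LE f s) M A α → PAM A)
    (hβ : ¬ Defines α β) : ∃ (Ro : Fml) (c : ℕ), OpB 0 Ro ∧ (∀ x, Ro.Free x → x = 2) ∧
      ¬ NN α β Ro c 0 ∧ ¬ NN α β Ro c 1 := by
  obtain ⟨P, hP⟩ := Pool.Agent.Helper364_SP.HalR.exHalRep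
  obtain ⟨Ro, h1, h2, hRo⟩ := exRo P hP.1
  obtain ⟨a0, -, ha0c, ha0⟩ := exSent 0 (B := 2) (by norm_num) (by norm_num) α
  obtain ⟨χ, -, hχc, hχ⟩ := exSent 2 (B := 3) (by norm_num) (by norm_num) β
  obtain ⟨Fx, -, hFxc, hFx⟩ := exFx f
  obtain ⟨c, hc⟩ := diag (tF Ro) (a0 :: Fx :: robinson) χ
  have hf : ∀ i, Rr (tF Ro) (a0 :: Fx :: robinson) χ c i → NN α β Ro c i := fun i h =>
    fwd hα ha0 hFx hχ h1 h2 h
  have hb : ∀ i, NN α β Ro c i → Rr (tF Ro) (a0 :: Fx :: robinson) χ c i := fun i h =>
    bwd hα ha0c hFxc hχc ha0 hFx hχ h1 h2 h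
  -- the truth value of the Rosser sentence in the models of `α`
  have hval : ∀ (M : Type) (hM : Nonempty M) (A : (LE f s).Structure M),
      @Sentence.Realize (LE f s) M A α → ∃ X : QS, (RoM Ro c hM (opsA A) ↔
        RoT P X (X.q.nm c)) := by
    intro M hM A hA
    have hP' := hα M hM A hA
    let X : QS := ⟨toS hM A fun _ _ => False, qA hM hP' fun _ _ => False⟩
    refine ⟨X, ?_⟩
    obtain ⟨x⟩ := id hM
    have e1 := sat_RoM h1 h2 c X.q (fun _ => x)
    have hR0 : ¬ Ro.Free 0 := fun h' => by
      have := h2 0 h'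
      omega
    have hR1 : ¬ Ro.Free 1 := fun h' => by
      have := h2 1 h'
      omega
    have e2 := TH838.J1549.sat_inst X.q le_rfl hR0 hR1 c (fun _ => x)
    have e3 := hRo X (upd (fun _ => x) 2 (X.q.nm c))
    rw [TH672.upd_same] at e3
    exact e1.symm.trans (e2.trans e3)
  have key0 : (∃ s, Hal c s 0) → ¬ (∃ s, Hal c s 1) → False := by
    intro h3 h4
    apply h4
    rw [hc 1]
    refine hb 1 ⟨fun _ => ⊥, fun M hM A hA hi => ?_⟩
    exfalso
    obtain ⟨X, hX⟩ := hval M hM A hA
    exact hi.2 one_ne_zero (hX.2 (ros_pos hP X c h3 h4))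
  have key1 : ¬ (∃ s, Hal c s 0) → (∃ s, Hal c s 1) → False := by
    intro h3 h4
    apply h3
    rw [hc 0]
    refine hb 0 ⟨fun _ => ⊥, fun M hM A hA hi => ?_⟩
    exfalso
    obtain ⟨X, hX⟩ := hval M hM A hA
    exact ros_neg hP X c h3 h4 (hX.1 (hi.1 rfl))
  have key : ¬ ((∃ s, Hal c s 0) ∧ (∃ s, Hal c s 1)) := by
    rintro ⟨h3, h4⟩
    exact hβ (merge hα h1 h2 (hf 0 ((hc 0).1 h3)) (hf 1 ((hc 1).1 h4)))
  refine ⟨Ro, c, h1, h2, fun h => ?_, fun h => ?_⟩
  · have h3 := (hc 0).2 (hb 0 h)
    by_cases h4 : ∃ s, Hal c s 1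
    · exact key ⟨h3, h4⟩
    · exact key0 h3 h4
  · have h4 := (hc 1).2 (hb 1 h)
    by_cases h3 : ∃ s, Hal c s 0
    · exact key ⟨h3, h4⟩
    · exact key1 h3 h4

/-! ### Sums of lists of arities -/

/-- symbols and positions -/
def posE (s : List ℕ) (n : ℕ) : NewRel s n ≃ {i : Fin s.length // s.get i = n} where
  toFun R := match n, R with
    | _, .sym i => ⟨i, rfl⟩
  invFun p := p.2 ▸ NewRel.sym p.1
  left_inv R := by cases R; rfl
  right_inv p := by
    obtain ⟨i, rfl⟩ := p
    rfl

/-- positions in a sum of lists -/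
def sumE (s t : List ℕ) (n : ℕ) : {i : Fin (s ++ t).length // (s ++ t).get i = n} ≃
    {i : Fin s.length // s.get i = n} ⊕ {i : Fin t.length // t.get i = n} where
  toFun p := if h : (p.1 : ℕ) < s.length then
      Sum.inl ⟨⟨p.1, h⟩, by
        have h2 := p.2
        rw [List.get_eq_getElem, List.getElem_append_left h] at h2
        exact h2⟩
    else Sum.inr ⟨⟨p.1 - s.length, by
        have h3 : (p.1 : ℕ) < (s ++ t).length := p.1.2
        have h4 : (s ++ t).length = s.length + t.length := List.length_append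
        omega⟩, by
        have h2 := p.2
        rw [List.get_eq_getElem, List.getElem_append_right (not_lt.1 h)] at h2
        exact h2⟩
  invFun q := match q with
    | Sum.inl p => ⟨⟨p.1, by
        rw [List.length_append]
        have := p.1.2
        omega⟩, by
        have h2 := p.2
        rw [List.get_eq_getElem]
        rw [List.getElem_append_left p.1.2]
        exact h2⟩
    | Sum.inr p => ⟨⟨s.length + p.1, by
        rw [List.length_append]
        have := p.1.2
        omega⟩, by
        have h2 := p.2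
        rw [List.get_eq_getElem]
        rw [List.getElem_append_right (Nat.le_add_right _ _)]
        simpa using h2⟩
  left_inv p := by
    obtain ⟨⟨i, hi⟩, h⟩ := p
    by_cases h1 : i < s.length
    · simp [h1]
    · simp only [h1, dite_false]
      apply Subtype.ext
      apply Fin.ext
      simp only
      omega
  right_inv q := by
    rcases q with ⟨⟨i, hi⟩, h⟩ | ⟨⟨i, hi⟩, h⟩
    · simp [hi]
    · simp

/-- symbols of a sum of lists -/
def symE (s t : List ℕ) (n : ℕ) : NewRel (s ++ t) n ≃ NewRel s n ⊕ NewRel t n :=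
  ((posE (s ++ t) n).trans (sumE s t n)).trans
    (Equiv.sumCongr (posE s n).symm (posE t n).symm)

/-- a translation given by formulas for the symbols -/
def ofR (ρ : ∀ n, NewRel s n → (LE f t).Formula (Fin n)) : Trans f s t := fun i => ρ _ (.sym i)

/-- the formula assigned to a symbol -/
def toR (τ : Trans f s t) (n : ℕ) (R : NewRel s n) : (LE f t).Formula (Fin n) :=
  match n, R with
  | _, .sym i => τ i

theorem pull_rel (τ : Trans f s t) {M : Type} (A : (LE f t).Structure M) {n : ℕ}
    (R : NewRel s n) (x : Fin n → M) :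
    @Structure.RelMap (LE f s) M (pull τ M A) n (Sum.inr R) x ↔
      @Formula.Realize (LE f t) M A _ (toR τ n R) x := by
  cases R
  exact Iff.rfl

theorem toR_ofR (ρ : ∀ n, NewRel s n → (LE f t).Formula (Fin n)) (n : ℕ) (R : NewRel s n) :
    toR (ofR ρ) n R = ρ n R := by
  cases R
  rfl

/-- an atomic formula -/
def atF (n : ℕ) (R : NewRel s n) : (LE f s).Formula (Fin n) :=
  .rel (l := n) (Sum.inr R) fun k => .var (Sum.inl k)

theorem realize_atF {M : Type} (A : (LE f s).Structure M) {n : ℕ} (R : NewRel s n)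
    (x : Fin n → M) : @Formula.Realize (LE f s) M A _ (atF n R) x ↔
      @Structure.RelMap (LE f s) M A n (Sum.inr R) x := Iff.rfl

/-- structures are equal if they have the same functions and relations -/
theorem str_ext' {M : Type} {A B : (LE f s).Structure M}
    (h1 : red A = red B)
    (h3 : ∀ (n : ℕ) (R : NewRel s n) (x : Fin n → M),
      @Structure.RelMap (LE f s) M A _ (Sum.inr R) x ↔
      @Structure.RelMap (LE f s) M B _ (Sum.inr R) x) : A = B := by
  refine str_ext (fun n F x => ?_) (fun x => ?_) fun i x => h3 _ _ x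
  · have := congrArg (fun C : (LA f).Structure M => @Structure.funMap (LA f) M C n F x) h1
    exact this
  · have := congrArg (fun C : (LA f).Structure M => @Structure.RelMap (LA f) M C 2 .lt x) h1
    exact iff_of_eq this

theorem red_pull (τ : Trans f s t) (M : Type) (A : (LE f t).Structure M) :
    red (pull τ M A) = red A := rfl

theorem opsA_pull (τ : Trans f s t) (M : Type) (A : (LE f t).Structure M) :
    opsA (pull τ M A) = opsA A := rfl

theorem PAM.pull {τ : Trans f s t} {M : Type} {A : (LE f t).Structure M} (h : PAM A) :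
    PAM (pull τ M A) := h

/-! ### The translations -/

/-- inclusion of the first list -/
def incL (f s t : List ℕ) : Trans f s (s ++ t) :=
  ofR fun n R => atF n ((symE s t n).symm (Sum.inl R))

/-- inclusion of the second list -/
def incR (f s t : List ℕ) : Trans f t (s ++ t) :=
  ofR fun n R => atF n ((symE s t n).symm (Sum.inr R))

/-- the translation given by two translations -/
def both (τ : Trans f s u) (σ : Trans f t u) : Trans f (s ++ t) u :=
  ofR fun n R => Sum.elim (toR τ n) (toR σ n) (symE s t n R)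

theorem pull_both_L (τ : Trans f s u) (σ : Trans f t u) (M : Type) (A : (LE f u).Structure M) :
    pull (incL f s t) M (pull (both τ σ) M A) = pull τ M A := by
  refine str_ext' rfl fun n R x => ?_
  rw [pull_rel, incL, toR_ofR, realize_atF, pull_rel, both, toR_ofR, pull_rel,
    Equiv.apply_symm_apply]
  exact Iff.rfl

theorem pull_both_R (τ : Trans f s u) (σ : Trans f t u) (M : Type) (A : (LE f u).Structure M) :
    pull (incR f s t) M (pull (both τ σ) M A) = pull σ M A := by
  refine str_ext' rfl fun n R x => ?_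
  rw [pull_rel, incR, toR_ofR, realize_atF, pull_rel, both, toR_ofR, pull_rel,
    Equiv.apply_symm_apply]
  exact Iff.rfl

/-! ### Theories of truth -/

theorem realize_lift {M : Type} (A : (LE f s).Structure M) (σ : (LA f).Sentence) :
    @Sentence.Realize (LE f s) M A (lift f s σ) ↔ @Sentence.Realize (LA f) M (red A) σ := by
  let _ := A
  let _ := red A
  have : (incl f s).IsExpansionOn M := LHom.isExpansionOn_reduct (incl f s) M
  exact LHom.realize_onSentence M (φ := incl f s) σ

theorem IsTruth.pam {E : (LA f).Theory} {g : (LA f).Sentence → ℕ} {α : (LE f s).Sentence}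
    (h : IsTruth E g α) (hE : ExtPAMinus E) (M : Type) (hM : Nonempty M)
    (A : (LE f s).Structure M) (hA : @Sentence.Realize (LE f s) M A α) : PAM A := by
  refine @hE M hM (red A) ?_
  refine @Theory.Model.mk (LA f) M (red A) E fun φ hφ => ?_
  exact (realize_lift A φ).1 (prov_iff.1 (h.1 φ hφ) M hM A hA)

theorem realize_thN {M : Type} (A : (LE f s).Structure M) (Θ : (LE f s).Formula (Fin 1)) (n : ℕ) :
    @Sentence.Realize (LE f s) M A (BoundedFormula.subst Θ fun _ => numeral f s n) ↔
      @Formula.Realize (LE f s) M A _ Θ (fun _ => (opsA A).nm n) := by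
  show @BoundedFormula.Realize (LE f s) M A _ _ (BoundedFormula.subst Θ fun _ => numeral f s n)
    default default ↔ _
  rw [@BoundedFormula.realize_subst (LE f s) M A]
  have e : (fun _ : Fin 1 => @Term.realize (LE f s) M A _ (default : Empty → M)
      (numeral f s n)) = fun _ => (opsA A).nm n := by
    funext _
    exact realize_numeral M A _ n
  rw [e]
  exact Iff.rfl

/-- A sentence that proves the translation of a theory of truth is a theory of truth. -/
theorem IsTruth.of_defines {E : (LA f).Theory} {g : (LA f).Sentence → ℕ}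
    {α : (LE f s).Sentence} (h : IsTruth E g α) {γ : (LE f u).Sentence} {τ : Trans f s u}
    (hγ : Prov γ (tr τ α)) : IsTruth E g γ := by
  obtain ⟨h1, Θ, h2⟩ := h
  have key : ∀ (M : Type) (_ : Nonempty M) (A : (LE f u).Structure M),
      @Sentence.Realize (LE f u) M A γ → @Sentence.Realize (LE f s) M (pull τ M A) α := by
    intro M hM A hA
    rw [← realize_tr_sentence]
    exact prov_iff.1 hγ M hM A hA
  refine ⟨fun φ hφ => prov_iff.2 fun M hM A hA => ?_, tr τ Θ, fun σ =>
    prov_iff.2 fun M hM A hA => ?_⟩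
  · rw [realize_lift]
    exact (realize_lift (pull τ M A) φ).1 (prov_iff.1 (h1 φ hφ) M hM _ (key M hM A hA))
  · have h3 := prov_iff.1 (h2 σ) M hM _ (key M hM A hA)
    have h4 : @Sentence.Realize (LE f s) M (pull τ M A)
        (BoundedFormula.subst Θ fun _ => numeral f s (g σ)) ↔
        @Sentence.Realize (LE f s) M (pull τ M A) (lift f s σ) :=
      (@BoundedFormula.realize_iff (LE f s) M (pull τ M A) _ _ _ _ _ _).1 h3
    rw [realize_thN, realize_lift] at h4
    refine (@BoundedFormula.realize_iff (LE f u) M A _ _ _ _ _ _).2 ?_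
    show @Sentence.Realize (LE f u) M A (BoundedFormula.subst (tr τ Θ)
      fun _ => numeral f u (g σ)) ↔ @Sentence.Realize (LE f u) M A (lift f u σ)
    rw [realize_lift]
    refine Iff.trans ?_ h4
    refine (realize_thN A (tr τ Θ) (g σ)).trans ?_
    exact realize_tr τ M A _ _ _

/-! ### Density -/

theorem dense {E : (LA f).Theory} {g : (LA f).Sentence → ℕ} (hE : ExtPAMinus E)
    {a b : DefT E g} (hab : a < b) : ∃ c : DefT E g, a < c ∧ c < b := by
  obtain ⟨h1, h2⟩ := hab
  obtain ⟨s, α, hα⟩ := a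
  obtain ⟨t, β, hβ⟩ := b
  have h1 : Defines β α := h1
  have h2 : ¬ Defines α β := h2
  obtain ⟨Ro, c, r1, r2, r3, r4⟩ := exists_rosser α β (hα.pam hE) h2
  obtain ⟨Φ, hΦ⟩ := exPhi f (s ++ t) r1 r2 c
  let γ : (LE f (s ++ t)).Sentence := tr (incL f s t) α ⊓ (Φ.imp (tr (incR f s t) β))
  have hγ : ∀ (M : Type) (C : (LE f (s ++ t)).Structure M),
      @Sentence.Realize (LE f (s ++ t)) M C γ ↔
        (@Sentence.Realize (LE f s) M (pull (incL f s t) M C) α ∧
          (@Sentence.Realize (LE f (s ++ t)) M C Φ →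
            @Sentence.Realize (LE f t) M (pull (incR f s t) M C) β)) := by
    intro M C
    rw [← realize_tr_sentence, ← realize_tr_sentence]
    show @BoundedFormula.Realize (LE f (s ++ t)) M C _ _ (tr (incL f s t) α ⊓
      (Φ.imp (tr (incR f s t) β))) default default ↔ _
    rw [@BoundedFormula.realize_inf (LE f (s ++ t)) M C,
      @BoundedFormula.realize_imp (LE f (s ++ t)) M C]
    exact Iff.rfl
  have hγα : Prov γ (tr (incL f s t) α) := prov_iff.2 fun M hM C hC => by
    rw [realize_tr_sentence]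
    exact ((hγ M C).1 hC).1
  have hγt : IsTruth E g γ := hα.of_defines hγα
  refine ⟨⟨s ++ t, γ, hγt⟩, ⟨⟨incL f s t, hγα⟩, ?_⟩, ⟨?_, ?_⟩⟩
  · -- `α` does not define `γ`
    rintro ⟨μ, hμ⟩
    have hμ : Prov α (tr μ γ) := hμ
    refine r3 ⟨compT (incR f s t) μ, fun M hM A hA hi => ?_⟩
    have h3 := prov_iff.1 hμ M hM A hA
    rw [realize_tr_sentence, hγ] at h3
    rw [pull_comp]
    refine h3.2 ((hΦ M hM _ ?_).2 (hi.1 rfl))
    exact PAM.pull (hα.pam hE M hM A hA)
  · -- `β` defines `γ`
    obtain ⟨τ, hτ⟩ := h1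
    refine ⟨both τ (idT f t), prov_iff.2 fun M hM B hB => ?_⟩
    rw [realize_tr_sentence]
    refine (hγ M _).2 ⟨?_, fun _ => ?_⟩
    · rw [pull_both_L, ← realize_tr_sentence]
      exact prov_iff.1 hτ M hM B hB
    · rw [pull_both_R, pull_id]
      exact hB
  · -- `γ` does not define `β`
    rintro ⟨μ, hμ⟩
    have hμ : Prov γ (tr μ β) := hμ
    refine r4 ⟨compT μ (both (idT f s) fun _ => ⊥), fun M hM A hA hi => ?_⟩
    rw [pull_comp, ← realize_tr_sentence]
    refine prov_iff.1 hμ M hM _ ((hγ M _).2 ⟨?_, fun h => ?_⟩)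
    · rw [pull_both_L, pull_id]
      exact hA
    · exfalso
      refine hi.2 one_ne_zero ?_
      have hP : PAM (pull (both (idT f s) fun _ => ⊥ : Trans f (s ++ t) s) M A) :=
        PAM.pull (hα.pam hE M hM A hA)
      exact (hΦ M hM _ hP).1 h

end Pool.Agent.Helper26_DEF
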