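import Pool.Agent.Helper26_DEF.DD

/-!
# The definability relation is recursively enumerable; the fixed point
-/

set_option autoImplicit false

namespace Pool.Agent.Helper26_DEF

open Pool.Agent.TH672 (Fm Str upd Pv LogK)
open Pool.Agent.TH636.BC (Fml inst robinson Arith gn blk)
open Pool.Agent.Helper364_SP (OpB Hal)
open Pool.Agent.TH955.J1547
open Pool.Agent.Helper364_SP.RrRec (re_exists gn_inst instN p_instN pv_iff andN p_andN gn_and)

/-- comparison with `2` -/
def l2 (i : ℕ) : Bool := decide (i < 2)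

theorem p_l2 {β : Type} [Primcodable β] {f : β → ℕ} (hf : Primrec f) :
    Primrec fun x => l2 (f x) :=
  (Primrec.nat_lt.decide).comp hf (Primrec.const 2)

/-- step for `ob` -/
def obs (_ : ℕ) (n : ℕ) (b1 b2 : Bool) : Bool :=
  cond (eb (tg n) 7) (l2 (c1 n))
    (cond (eb (tg n) 8) (b1 && b2) (cond (eb (tg n) 9) b2 true))

/-- only the symbols `op i` with `i < 2` occur -/
def ob (n : ℕ) : Bool := fold obs 0 n

theorem ob_primrec : Primrec ob := by
  have h := fold_primrec obs (by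
    unfold obs
    repeat' with_reducible first
      | assumption
      | exact p_var
      | apply p_cond
      | apply p_and
      | apply p_eb
      | apply p_l2
      | apply p_tg
      | apply p_c1
      | apply p_fst
      | apply p_snd
      | exact Primrec.const _)
  exact h.comp (Primrec.const 0) Primrec.id

theorem ob_gn : ∀ φ : Fml, ob (gn φ) = true ↔ OpB 2 φ := by
  intro φ
  induction φ with
  | bot => unfold ob gn; rw [fold]; simp [obs, eb, OpB]
  | eq x y => unfold ob gn; rw [fold]; simp [obs, eb, OpB]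
  | zero x => unfold ob gn; rw [fold]; simp [obs, eb, OpB]
  | succ x y => unfold ob gn; rw [fold]; simp [obs, eb, OpB]
  | add x y z => unfold ob gn; rw [fold]; simp [obs, eb, OpB]
  | mul x y z => unfold ob gn; rw [fold]; simp [obs, eb, OpB]
  | op i a b c d => unfold ob gn; rw [fold]; simp [obs, eb, OpB, l2]
  | imp φ ψ ih1 ih2 =>
    unfold ob at *
    rw [gn, fold_pair _ _ (by norm_num)]
    simp [obs, eb, OpB, ih1, ih2]
  | all x φ ih =>
    unfold ob at *
    rw [gn, fold_pair _ _ (by norm_num)]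
    simp [obs, eb, OpB, ih]

/-- The formulas which may be used as definitions: only the variables `0`, `1` are free and only the
symbols `op i` with `i < 2` occur. -/
def Ok (φ : Fml) : Prop := (∀ x, φ.Free x → x < 2) ∧ OpB 2 φ

/-- `Ok` on Gödel numbers -/
def okN (g : ℕ) : Prop :=
  isF g = true ∧ ob g = true ∧ ∀ x < g + 1, (l2 x || ! fr x g) = true

theorem okN_primrec : PrimrecPred okN := by
  have h1 : PrimrecPred fun g => isF g = true := bool_pred isF_primrec
  have h2 : PrimrecPred fun g => ob g = true := bool_pred ob_primrec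
  have h4 : Primrec l2 := (Primrec.nat_lt.decide).comp Primrec.id (Primrec.const 2)
  have h3 : PrimrecRel fun x g : ℕ => (l2 x || ! fr x g) = true := by
    refine bool_pred (β := ℕ × ℕ) (f := fun p => (l2 p.1 || ! fr p.1 p.2)) ?_
    exact p_or (h4.comp Primrec.fst) (p_not (p_fr Primrec.fst Primrec.snd))
  have h5 : PrimrecPred fun g : ℕ => ∀ x < g + 1, (l2 x || ! fr x g) = true :=
    (PrimrecRel.forall_lt h3).comp Primrec.succ Primrec.id
  exact h1.and (h2.and h5)

theorem okN_gn (φ : Fml) : okN (gn φ) ↔ Ok φ := by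
  unfold okN Ok
  rw [ob_gn]
  constructor
  · rintro ⟨-, h2, h3⟩
    refine ⟨fun x hx => ?_, h2⟩
    have h := h3 x (Nat.lt_succ_of_le (free_le φ x hx))
    have h' := (fr_gn x φ).2 hx
    simpa [l2, h'] using h
  · rintro ⟨h1, h2⟩
    refine ⟨isF_gn φ, h2, fun x _ => ?_⟩
    by_cases hx : x < 2
    · simp [l2, hx]
    · have h' : ¬ fr x (gn φ) = true := fun h => hx (h1 x ((fr_gn x φ).1 h))
      simp [h']

theorem okN_ex {g : ℕ} (h : okN g) : ∃ φ : Fml, Ok φ ∧ gn φ = g := by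
  obtain ⟨φ, rfl⟩ := (isF_iff g).1 h.1
  exact ⟨φ, (okN_gn φ).1 h, rfl⟩

/-- The definition of the symbol `op 2` by the formula `φ`. -/
def dF (φ : Fml) : Fml := .all 0 (.all 1 (.iff (.op 2 0 1 1 1) φ))

/-- the definition on Gödel numbers -/
def dFN (g : ℕ) : ℕ :=
  allN 0 (allN 1 (andN (impN (gn (.op 2 0 1 1 1)) g) (impN g (gn (.op 2 0 1 1 1)))))

theorem gn_dF (φ : Fml) : gn (dF φ) = dFN (gn φ) := rfl

theorem p_dFN {β : Type} [Primcodable β] {g : β → ℕ} (hg : Primrec g) :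
    Primrec fun x => dFN (g x) :=
  p_allN (Primrec.const _) (p_allN (Primrec.const _)
    (p_andN (p_impN (Primrec.const _) hg) (p_impN hg (Primrec.const _))))

/-- the axioms with parameters `c` and `i` -/
def Sx (T : Fml) (Γ : List Fml) (c i : ℕ) : List Fml := inst 2 c (inst 3 i T) :: Γ

/-- the axioms on Gödel numbers -/
def sxN (T : Fml) (Γ : List Fml) (c i : ℕ) : List ℕ :=
  instN 2 c (instN 3 i (gn T)) :: Γ.map gn

theorem sx_gn (T : Fml) (Γ : List Fml) (c i : ℕ) : (Sx T Γ c i).map gn = sxN T Γ c i := by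
  simp only [Sx, sxN, List.map_cons, gn_inst]

theorem p_sxN {β : Type} [Primcodable β] (T : Fml) (Γ : List Fml) {f g : β → ℕ} (hf : Primrec f)
    (hg : Primrec g) : Primrec fun x => sxN T Γ (f x) (g x) :=
  Primrec.list_cons.comp (p_instN 2 hf (p_instN 3 hg (Primrec.const _))) (Primrec.const _)

/-- The relation: for some definition of the symbol `op 2`, the sentence `χ` is provable. -/
def Rr (T : Fml) (Γ : List Fml) (χ : Fml) (c i : ℕ) : Prop :=
  ∃ φ : Fml, Ok φ ∧ Pv (fun ψ => ψ ∈ dF φ :: Sx T Γ c i) χ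

/-- the primitive recursive test -/
def Tst (L : ℕ → Bool) (T : Fml) (Γ : List Fml) (χ : Fml) (p : ℕ × ℕ) (w : ℕ × List ℕ) : Prop :=
  okN w.1 ∧ (∀ a ∈ w.2, isF a = true) ∧
    TH554.J1548.isPf L (dFN w.1 :: sxN T Γ p.1 p.2) (gn χ :: w.2) = true

theorem tst_primrec {L : ℕ → Bool} (hL : Primrec L) (T : Fml) (Γ : List Fml) (χ : Fml) :
    PrimrecPred fun x : (ℕ × ℕ) × (ℕ × List ℕ) => Tst L T Γ χ x.1 x.2 := by
  have ha : Primrec fun x : (ℕ × ℕ) × (ℕ × List ℕ) => x.2.1 := Primrec.fst.comp Primrec.snd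
  have h1 : PrimrecPred fun x : (ℕ × ℕ) × (ℕ × List ℕ) => okN x.2.1 := okN_primrec.comp ha
  have h2 : PrimrecPred fun x : (ℕ × ℕ) × (ℕ × List ℕ) => ∀ a ∈ x.2.2, isF a = true :=
    (PrimrecPred.forall_mem_list (p := fun a => isF a = true) (bool_pred isF_primrec)).comp
      (Primrec.snd.comp Primrec.snd)
  have h3 : Primrec fun x : (ℕ × ℕ) × (ℕ × List ℕ) => dFN x.2.1 :: sxN T Γ x.1.1 x.1.2 :=
    Primrec.list_cons.comp (p_dFN ha)
      (p_sxN T Γ (Primrec.fst.comp Primrec.fst) (Primrec.snd.comp Primrec.fst))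
  have h4 : Primrec fun x : (ℕ × ℕ) × (ℕ × List ℕ) => gn χ :: x.2.2 :=
    Primrec.list_cons.comp (Primrec.const _) (Primrec.snd.comp Primrec.snd)
  have h5 : PrimrecPred fun x : (ℕ × ℕ) × (ℕ × List ℕ) =>
      TH554.J1548.isPf L (dFN x.2.1 :: sxN T Γ x.1.1 x.1.2) (gn χ :: x.2.2) = true :=
    bool_pred ((TH554.J1548.isPf_primrec hL).comp h3 h4)
  exact h1.and (h2.and h5)

theorem tst_iff {L : ℕ → Bool} (hL : ∀ n, L n = true ↔ ∃ φ, n = gn φ ∧ LogK φ)
    (T : Fml) (Γ : List Fml) (χ : Fml) (p : ℕ × ℕ) :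
    (∃ w, Tst L T Γ χ p w) ↔ Rr T Γ χ p.1 p.2 := by
  have hG : ∀ φ : Fml, (dF φ :: Sx T Γ p.1 p.2).map gn = dFN (gn φ) :: sxN T Γ p.1 p.2 := by
    intro φ
    rw [List.map_cons, sx_gn, gn_dF]
  constructor
  · rintro ⟨⟨g, π⟩, h1, h2, h3⟩
    simp only at h1 h2 h3
    obtain ⟨φ, hφ, rfl⟩ := okN_ex h1
    obtain ⟨Q, rfl⟩ := TH554.J1548.exists_map (F := isF) isF_iff π h2
    refine ⟨φ, hφ, (pv_iff _ _).2 ⟨Q, ?_⟩⟩
    rw [← TH554.J1548.isPf_iff hL, hG, List.map_cons]
    exact h3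
  · rintro ⟨φ, hφ, h⟩
    obtain ⟨Q, hQ⟩ := (pv_iff _ _).1 h
    rw [← TH554.J1548.isPf_iff hL, hG, List.map_cons] at hQ
    refine ⟨(gn φ, Q.map gn), (okN_gn _).2 hφ, ?_, hQ⟩
    intro a ha
    obtain ⟨ψ, -, rfl⟩ := List.mem_map.1 ha
    exact isF_gn ψ

theorem rr_re (T : Fml) (Γ : List Fml) (χ : Fml) :
    REPred (fun x : ℕ × ℕ => Rr T Γ χ x.1 x.2) := by
  obtain ⟨L, hL, hL'⟩ := Pool.Agent.TH955.J1547.gnLog
  exact (re_exists (tst_primrec hL T Γ χ)).of_eq (tst_iff hL' T Γ χ)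

/-- The fixed point. -/
theorem diag (T : Fml) (Γ : List Fml) (χ : Fml) : ∃ c : ℕ, ∀ i,
    (∃ s, Hal c s i) ↔ Rr T Γ χ c i := by
  have h1 : REPred (fun p : ℕ × ℕ => Rr T Γ χ p.1 p.2) := rr_re T Γ χ
  have h2 : Partrec (fun q : Nat.Partrec.Code × ℕ =>
      Part.assert (Rr T Γ χ (Encodable.encode q.1) q.2) (fun _ => Part.some ())) :=
    Partrec.comp (f := fun p : ℕ × ℕ => Part.assert (Rr T Γ χ p.1 p.2) (fun _ => Part.some ()))
      (g := fun q : Nat.Partrec.Code × ℕ => (Encodable.encode q.1, q.2)) h1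
      (Computable.pair (Computable.encode.comp Computable.fst) Computable.snd)
  have h3 : Partrec₂ (fun (c : Nat.Partrec.Code) (n : ℕ) =>
      (Part.assert (Rr T Γ χ (Encodable.encode c) n) (fun _ => Part.some ())).map
        (fun _ => (0 : ℕ))) :=
    Partrec.map h2 (Computable.const 0).to₂
  obtain ⟨e, he⟩ := Nat.Partrec.Code.fixed_point₂ h3
  refine ⟨Encodable.encode e, fun n => ?_⟩
  have h4 : (∃ s, Hal (Encodable.encode e) s n) ↔ (e.eval n).Dom := by
    constructor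
    · rintro ⟨s, hs⟩
      unfold Hal at hs
      rw [Denumerable.ofNat_encode] at hs
      obtain ⟨x, hx⟩ := Option.isSome_iff_exists.1 hs
      exact (Nat.Partrec.Code.evaln_sound hx).1
    · intro hd
      obtain ⟨s, hs⟩ := Nat.Partrec.Code.evaln_complete.1 (Part.get_mem hd)
      refine ⟨s, ?_⟩
      unfold Hal
      rw [Denumerable.ofNat_encode]
      exact Option.isSome_iff_exists.2 ⟨_, hs⟩
  rw [h4, he]
  simp [Part.assert]

end Pool.Agent.Helper26_DEF
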