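import Pool.Agent.Helper26_DEF.ML
import Pool.Agent.Helper26_DEF.Rec

/-!
# The Rosser sentence
-/

set_option autoImplicit false

namespace Pool.Agent.Helper26_DEF

open FirstOrder FirstOrder.Language
open Pool.Agent.TH672 (Fm Str upd Pv LogK)
open Pool.Agent.TH636.BC (Fml inst robinson Arith)
open Pool.Agent.TH838.J1549 (Q)
open Pool.Agent.Helper364_SP (OpB Hal HalRep as3)

theorem DD.sat {B : ℕ} {I : Type 1} {S : I → Str ℕ} : ∀ (φ : Fml) (_ : OpB B φ) {β : Type}
    [Finite β] (g : ℕ → β), DD B S (fun i (w : β → (S i).M) => Fm.Sat (S i) φ (fun x => w (g x)))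
  | .bot, _, _, _, _ => DD.false'
  | .eq x y, _, _, _, g => DD.eq (g x) (g y)
  | .zero x, _, _, _, g => DD.zero (g x)
  | .succ x y, _, _, _, g => DD.succ (g x) (g y)
  | .add x y z, _, _, _, g => DD.add (g x) (g y) (g z)
  | .mul x y z, _, _, _, g => DD.mul (g x) (g y) (g z)
  | .op i a b c d, h, _, _, g => DD.op i (g a) (g b) (g c) (g d) h
  | .imp φ ψ, h, _, _, g => (DD.sat φ h.1 g).imp (DD.sat ψ h.2 g)
  | .all x φ, h, β, _, g => by
    refine DD.all (R := fun i w a => Fm.Sat (S i) φ (upd (fun x => w (g x)) x a)) ?_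
    refine (DD.sat φ h (β := Option β) (fun y => if y = x then none else some (g y))).of_iff ?_
    intro i w
    have : (fun y => w (if y = x then none else some (g y))) =
        upd (fun x => w (some (g x))) x (w none) := by
      funext y
      unfold upd
      split_ifs <;> rfl
    rw [this]

/-- The structure with the given operations and symbols. -/
@[reducible] def mkS (M : Type) (hM : Nonempty M) (O : Ops M) (op : ℕ → M → M → M → M → Prop) :
    Str ℕ where
  M := M
  ne := hM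
  zero x := x = O.o
  succ x y := y = O.s x
  add x y z := z = O.a x y
  mul x y z := z = O.m x y
  op := op

theorem sat_mk {S : Str ℕ} (q : Q S) (op : ℕ → S.M → S.M → S.M → S.M → Prop) :
    ∀ (φ : Fml), OpB 0 φ → ∀ v : ℕ → S.M,
      Fm.Sat S φ v ↔ Fm.Sat (mkS S.M S.ne (opsQ q) op) φ v
  | .bot, _, _ => Iff.rfl
  | .eq _ _, _, _ => Iff.rfl
  | .zero x, _, v => q.zero_iff (v x)
  | .succ x y, _, v => q.succ_iff (v x) (v y)
  | .add x y z, _, v => q.add_iff (v x) (v y) (v z)
  | .mul x y z, _, v => q.mul_iff (v x) (v y) (v z)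
  | .op _ _ _ _ _, h, _ => absurd h (Nat.not_lt_zero _)
  | .imp φ ψ, h, v => imp_congr (sat_mk q op φ h.1 v) (sat_mk q op ψ h.2 v)
  | .all x φ, h, v => forall_congr' fun a => sat_mk q op φ h (upd v x a)

/-- The Rosser property of the program `a`: for some `u` the computation with input `0` halts
within `u` steps, and for no `u' ≤ u` the computation with input `1` halts within `u'` steps. -/
def RoT (P : Fml) (X : QS) (a : X.S.M) : Prop :=
  ∃ u, Fm.Sat X.S P (as3 a u (X.q.nm 0)) ∧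
    ∀ u', (∃ z, X.q.a z u' = u) → ¬ Fm.Sat X.S P (as3 a u' (X.q.nm 1))

theorem exRo (P : Fml) (hP : Arith P) : ∃ Ro : Fml, OpB 0 Ro ∧ (∀ x, Ro.Free x → x = 2) ∧
    ∀ (X : QS) (v : ℕ → X.S.M), Fm.Sat X.S Ro v ↔ RoT P X (v 2) := by
  have hP0 : OpB 0 P := Pool.Agent.Helper364_SP.OpB.of_arith hP
  have key : ∀ {β : Type} [Finite β] (a b c : β), DD 0 qsS
      (fun X (w : β → X.S.M) => Fm.Sat X.S P (as3 (w a) (w b) (w c))) := by
    intro β _ a b c
    refine (DD.sat P hP0 (fun x => if x = 2 then a else if x = 3 then b else c)).of_iff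
      fun X w => ?_
    have : (fun x => w (if x = 2 then a else if x = 3 then b else c)) =
        as3 (w a) (w b) (w c) := by
      funext x
      unfold as3
      split_ifs <;> rfl
    rw [this]
  have h : DD 0 qsS (β := Unit) (fun X w => RoT P X (w ())) := by
    unfold RoT
    refine DD.ex (R := fun (X : QS) (w : Unit → X.S.M) u =>
      Fm.Sat X.S P (as3 (w ()) u (X.q.nm 0)) ∧
        ∀ u', (∃ z, X.q.a z u' = u) → ¬ Fm.Sat X.S P (as3 (w ()) u' (X.q.nm 1))) ?_
    refine DD.and (R := fun (X : QS) (w : Option Unit → X.S.M) =>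
        Fm.Sat X.S P (as3 (w (some ())) (w none) (X.q.nm 0)))
      (R' := fun (X : QS) (w : Option Unit → X.S.M) =>
        ∀ u', (∃ z, X.q.a z u' = w none) → ¬ Fm.Sat X.S P (as3 (w (some ())) u' (X.q.nm 1))) ?_ ?_
    · refine (DD.ex (R := fun (X : QS) (w : Option Unit → X.S.M) i => i = (opsQ X.q).nm 0 ∧
        Fm.Sat X.S P (as3 (w (some ())) (w none) i)) ((DD.qnm qsq 0 none).and
          (key (some (some ())) (some none) none))).of_iff fun X w => ?_
      simp only [exists_eq_left]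
      exact Iff.rfl
    · refine DD.all (R := fun (X : QS) (w : Option Unit → X.S.M) u' =>
        (∃ z, X.q.a z u' = w none) → ¬ Fm.Sat X.S P (as3 (w (some ())) u' (X.q.nm 1))) ?_
      refine DD.imp (R := fun (X : QS) (w : Option (Option Unit) → X.S.M) =>
        ∃ z, X.q.a z (w none) = w (some none)) (R' := fun (X : QS)
          (w : Option (Option Unit) → X.S.M) => ¬ Fm.Sat X.S P (as3 (w (some (some ())))
            (w none) (X.q.nm 1))) ?_ (DD.not ?_)
      · refine (DD.ex (R := fun (X : QS) (w : Option (Option Unit) → X.S.M) z =>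
          w (some none) = X.q.a z (w none))
          (DD.qa qsq (some (some none)) none (some none))).of_iff fun X w => ?_
        exact exists_congr fun z => eq_comm
      · refine (DD.ex (R := fun (X : QS) (w : Option (Option Unit) → X.S.M) i =>
          i = (opsQ X.q).nm 1 ∧ Fm.Sat X.S P (as3 (w (some (some ()))) (w none) i))
          ((DD.qnm qsq 1 none).and
            (key (some (some (some ()))) (some none) none))).of_iff fun X w => ?_
        simp only [exists_eq_left]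
        exact Iff.rfl
  obtain ⟨φ, h1, h2, h3⟩ := h (fun _ => 2)
  refine ⟨φ, h1, fun x hx => ?_, fun X v => h3 X v⟩
  obtain ⟨-, hb⟩ := h2 x hx
  exact hb.symm

theorem ros_pos {P : Fml} (hP : HalRep P) (X : QS) (c : ℕ) (h0 : ∃ s, Hal c s 0)
    (h1 : ¬ ∃ s, Hal c s 1) : RoT P X (X.q.nm c) := by
  obtain ⟨-, -, hP⟩ := hP
  obtain ⟨s, hs⟩ := h0
  refine ⟨X.q.nm s, (hP X.S X.q _ c s 0 rfl rfl rfl).2 hs, ?_⟩
  rintro u' hu hsat
  obtain ⟨k, -, rfl⟩ := X.q.le_nm hu
  exact h1 ⟨k, (hP X.S X.q _ c k 1 rfl rfl rfl).1 hsat⟩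

theorem ros_neg {P : Fml} (hP : HalRep P) (X : QS) (c : ℕ) (h0 : ¬ ∃ s, Hal c s 0)
    (h1 : ∃ s, Hal c s 1) : ¬ RoT P X (X.q.nm c) := by
  obtain ⟨-, -, hP⟩ := hP
  obtain ⟨s, hs⟩ := h1
  rintro ⟨u, hu, hu'⟩
  rcases X.q.total u s with h | h
  · obtain ⟨k, -, rfl⟩ := X.q.le_nm h
    exact h0 ⟨k, (hP X.S X.q _ c k 0 rfl rfl rfl).1 hu⟩
  · exact hu' _ h ((hP X.S X.q _ c s 1 rfl rfl rfl).2 hs)

/-- The formula `T`: the variable `2` is the program, the variable `3` is the input. -/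
def tF (Ro : Fml) : Fml :=
  .and (.imp (.zero 3) Ro) (.imp (.neg (.zero 3)) (.neg Ro))

theorem closed_T {Ro : Fml} (h : ∀ x, Ro.Free x → x = 2) (c i : ℕ) :
    (inst 2 c (inst 3 i (tF Ro))).Closed := by
  intro x hx
  have h1 := TH838.J1549.free_inst hx
  have h2 := TH838.J1549.free_inst h1.2.2
  have h3 := h2.2.2
  have : x = 2 ∨ x = 3 := by
    simp only [tF, Fm.and, Fm.neg, Fm.Free, or_false] at h3
    rcases h3 with (h3 | h3) | h3 | h3
    · exact Or.inr h3
    · exact Or.inl (h x h3)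
    · exact Or.inr h3
    · exact Or.inl (h x h3)
  rcases this with rfl | rfl
  · exact h1.2.1 rfl
  · exact h2.2.1 rfl

theorem sat_T {Ro : Fml} (h : ∀ x, Ro.Free x → x = 2) {S : Str ℕ} (q : Q S) (c i : ℕ)
    (v : ℕ → S.M) : Fm.Sat S (inst 2 c (inst 3 i (tF Ro))) v ↔
      ((i = 0 → Fm.Sat S (inst 2 c Ro) v) ∧ (i ≠ 0 → ¬ Fm.Sat S (inst 2 c Ro) v)) := by
  have hT : ∀ x, (tF Ro).Free x → x = 2 ∨ x = 3 := by
    intro x h3
    simp only [tF, Fm.and, Fm.neg, Fm.Free, or_false] at h3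
    rcases h3 with (h3 | h3) | h3 | h3
    · exact Or.inr h3
    · exact Or.inl (h x h3)
    · exact Or.inr h3
    · exact Or.inl (h x h3)
  have hT0 : ¬ (tF Ro).Free 0 := fun h' => by
    have := hT 0 h'
    omega
  have hT1 : ¬ (tF Ro).Free 1 := fun h' => by
    have := hT 1 h'
    omega
  have hR0 : ¬ Ro.Free 0 := fun h' => by
    have := h 0 h'
    omega
  have hR1 : ¬ Ro.Free 1 := fun h' => by
    have := h 1 h'
    omega
  rw [TH838.J1549.sat_inst q le_rfl (fun h' => (TH838.J1549.free_inst h').1 rfl)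
    (fun h' => hT1 (TH838.J1549.free_inst h').2.2),
    TH838.J1549.sat_inst q (by omega) hT0 hT1, TH838.J1549.sat_inst q le_rfl hR0 hR1]
  have e1 : Fm.Sat S Ro (upd (upd v 2 (q.nm c)) 3 (q.nm i)) ↔ Fm.Sat S Ro (upd v 2 (q.nm c)) := by
    refine TH838.J1549.sat_cong fun x hx => ?_
    rw [h x hx, TH672.upd_ne _ _ (by omega)]
  have e2 : S.zero (q.nm i) ↔ i = 0 := by
    rw [q.zero_iff]
    constructor
    · intro h'
      exact q.nm_inj (i := i) (j := 0) h'
    · rintro rfl
      rfl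
  simp only [tF, Fm.sat_and, Fm.sat_imp, Fm.sat_neg, Fm.sat_zero, TH672.upd_same, e1, e2, ne_eq]

end Pool.Agent.Helper26_DEF
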