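import Pool.Agent.Helper26_DEF.Good

/-!
# The structure of the library given by a structure for the extended language
-/

set_option autoImplicit false

namespace Pool.Agent.Helper26_DEF

open FirstOrder FirstOrder.Language
open Pool.Agent.TH672 (Fm Str upd Pv LogK)
open Pool.Agent.TH636.BC (Fml inst robinson Arith)
open Pool.Agent.TH838.J1549 (Q)
open Pool.Agent.Helper364_SP (OpB)

/-! ### Axioms for the functions -/

/-- models of Robinson arithmetic -/
structure QS where
  /-- the structure -/
  S : Str ℕ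
  /-- the arithmetical operations -/
  q : Q S

/-- the structures -/
abbrev qsS : QS → Str ℕ := fun X => X.S

/-- the operations -/
abbrev qsq : ∀ X : QS, Q (qsS X) := fun X => X.q

/-- `op 1` codes functions -/
def FxT (f : List ℕ) (X : QS) : Prop :=
  ∀ (j : Fin f.length) (x : Fin (f.get j) → X.S.M), ∃ y, ∀ z,
    X.S.op 1 ((opsQ X.q).nm j) ((opsQ X.q).tup x) z z ↔ z = y

theorem exFx (f : List ℕ) : ∃ φ : Fml, OpB 2 φ ∧ φ.Closed ∧
    ∀ (X : QS) (v : ℕ → X.S.M), Fm.Sat X.S φ v ↔ FxT f X := by
  have h : DD 2 qsS (β := Empty) (fun X _ => FxT f X) := by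
    refine DD.allFin f.length (fun j (X : QS) (_ : Empty → X.S.M) =>
      ∀ (x : Fin (f.get j) → X.S.M), ∃ y, ∀ z,
        X.S.op 1 ((opsQ X.q).nm j) ((opsQ X.q).tup x) z z ↔ z = y) fun j => ?_
    refine DD.allTuple _ (R := fun (X : QS) (_ : Empty → X.S.M) x => ∃ y, ∀ z,
        X.S.op 1 ((opsQ X.q).nm j) ((opsQ X.q).tup x) z z ↔ z = y) ?_
    refine DD.ex (R := fun (X : QS) (w : Empty ⊕ Fin (f.get j) → X.S.M) y => ∀ z,
        X.S.op 1 ((opsQ X.q).nm j) ((opsQ X.q).tup fun c => w (Sum.inr c)) z z ↔ z = y) ?_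
    refine DD.all (R := fun (X : QS) (w : Option (Empty ⊕ Fin (f.get j)) → X.S.M) z =>
        X.S.op 1 ((opsQ X.q).nm j) ((opsQ X.q).tup fun c => w (some (Sum.inr c))) z z ↔
          z = w none) ?_
    refine DD.iff (R := fun (X : QS) (w : Option (Option (Empty ⊕ Fin (f.get j))) → X.S.M) =>
        X.S.op 1 ((opsQ X.q).nm j) ((opsQ X.q).tup fun c => w (some (some (Sum.inr c))))
          (w none) (w none))
        (R' := fun (X : QS) (w : Option (Option (Empty ⊕ Fin (f.get j))) → X.S.M) =>
          w none = w (some none)) ?_ (DD.eq _ _)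
    refine (DD.ex (R := fun (X : QS) (w : Option (Option (Empty ⊕ Fin (f.get j))) → X.S.M) a =>
      a = (opsQ X.q).nm j ∧ ∃ b, b = ((opsQ X.q).tup fun c => w (some (some (Sum.inr c)))) ∧
        X.S.op 1 a b (w none) (w none)) ((DD.qnm qsq _ none).and
          (DD.ex (R := fun (X : QS) (w : Option (Option (Option (Empty ⊕ Fin (f.get j)))) → X.S.M)
            b => b = ((opsQ X.q).tup fun c => w (some (some (some (Sum.inr c))))) ∧
              X.S.op 1 (w none) b (w (some none)) (w (some none)))
            ((DD.qtup qsq _ none (fun c => some (some (some (some (Sum.inr c)))))).and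
              (DD.op 1 (some none) none (some (some none)) (some (some none))
                (by norm_num)))))).of_iff fun X w => ?_
    simp only [exists_eq_left]
  obtain ⟨φ, h1, h2, h3⟩ := h (fun e => e.elim)
  refine ⟨φ, h1, fun x hx => ?_, fun X v => h3 X v⟩
  obtain ⟨b, -⟩ := h2 x hx
  exact b.elim

/-- the good structure -/
theorem exGS {f : List ℕ} (X : QS) (h : FxT f X) : ∃ G : GS f, G.S = X.S ∧ HEq G.q X.q := by
  choose F hF using h
  exact ⟨⟨X.S, X.q, F, fun j x y => hF j x y⟩, rfl, HEq.rfl⟩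

/-! ### The structure of the library -/

variable {f s t : List ℕ} {M : Type}

/-- the arithmetical part -/
@[reducible] def red (A : (LE f s).Structure M) : (LA f).Structure M :=
  @LHom.reduct (LA f) (LE f s) (incl f s) M A

/-- `M` satisfies `PA⁻` -/
def PAM (A : (LE f s).Structure M) : Prop := @IsPAMinus f M (red A)

/-- the operations -/
def opsA (A : (LE f s).Structure M) : Ops M := @opsL f M (red A)

theorem PAM.fine {A : (LE f s).Structure M} (h : PAM A) :
    Fine (opsA A) (fun x y => @Structure.RelMap (LE f s) M A 2 (Sum.inl .lt) ![x, y]) :=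
  @fine_of f M (red A) h

/-- the structure of the library -/
@[reducible] def toS (hM : Nonempty M) (A : (LE f s).Structure M) (X : M → M → Prop) : Str ℕ where
  M := M
  ne := hM
  zero x := x = (opsA A).o
  succ x y := y = (opsA A).s x
  add x y z := z = (opsA A).a x y
  mul x y z := z = (opsA A).m x y
  op i a b c _ := match i with
    | 0 => ∃ (j : Fin s.length) (x : Fin (s.get j) → M), a = (opsA A).nm j ∧
        b = (opsA A).tup x ∧ @Structure.RelMap (LE f s) M A _ (Sum.inr (.sym j)) x
    | 1 => ∃ (j : Fin f.length) (x : Fin (f.get j) → M), a = (opsA A).nm j ∧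
        b = (opsA A).tup x ∧ c = @Structure.funMap (LE f s) M A _ (ArFun.ext j : ArFun f _) x
    | _ + 2 => X a b

/-- the arithmetical operations -/
def qA (hM : Nonempty M) {A : (LE f s).Structure M} (h : PAM A) (X : M → M → Prop) :
    Q (toS hM A X) where
  o := (opsA A).o
  s := (opsA A).s
  a := (opsA A).a
  m := (opsA A).m
  zero_iff _ := Iff.rfl
  succ_iff _ _ := Iff.rfl
  add_iff _ _ _ := Iff.rfl
  mul_iff _ _ _ := Iff.rfl
  s_ne := h.fine.s_ne
  s_inj := h.fine.s_inj
  cases := h.fine.cases
  a_o := h.fine.a_o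
  a_s := h.fine.a_s
  m_o := h.fine.m_o
  m_s := h.fine.m_s

theorem opsQ_qA (hM : Nonempty M) {A : (LE f s).Structure M} (h : PAM A) (X : M → M → Prop) :
    opsQ (qA hM h X) = opsA A := rfl

theorem PAM.nm_inj {A : (LE f s).Structure M} (h : PAM A) {i j : ℕ}
    (e : (opsA A).nm i = (opsA A).nm j) : i = j :=
  Ops.nm_inj _ h.fine.s_ne h.fine.s_inj e

theorem PAM.tup_inj {A : (LE f s).Structure M} (h : PAM A) {n : ℕ} {x y : Fin n → M}
    (e : (opsA A).tup x = (opsA A).tup y) : x = y :=
  Ops.tup_inj _ h.fine.pr_inj e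

theorem PAM.code {A : (LE f s).Structure M} (h : PAM A) {l : List ℕ}
    (P : ∀ j : Fin l.length, (Fin (l.get j) → M) → Prop) (j : Fin l.length)
    (x : Fin (l.get j) → M) :
    (∃ (j' : Fin l.length) (x' : Fin (l.get j') → M), (opsA A).nm j = (opsA A).nm j' ∧
      (opsA A).tup x = (opsA A).tup x' ∧ P j' x') ↔ P j x := by
  constructor
  · rintro ⟨j', x', h1, h2, h3⟩
    have e : j = j' := Fin.ext (h.nm_inj h1)
    subst e
    rw [h.tup_inj h2]
    exact h3
  · intro h3
    exact ⟨j, x, rfl, rfl, h3⟩

/-- the good structure -/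
def gA (hM : Nonempty M) {A : (LE f s).Structure M} (h : PAM A) (X : M → M → Prop) : GS f where
  S := toS hM A X
  q := qA hM h X
  F j x := @Structure.funMap (LE f s) M A _ (ArFun.ext j : ArFun f _) x
  hF j x y := h.code (fun j x => y = @Structure.funMap (LE f s) M A _ (ArFun.ext j : ArFun f _) x)
    j x

theorem toM_fun (hM : Nonempty M) {A : (LE f s).Structure M} (h : PAM A) (X : M → M → Prop)
    (u : List ℕ) (k n : ℕ) (F : ArFun f n) (x : Fin n → M) :
    @Structure.funMap (LE f u) M (toM (gA hM h X) u k) n F x =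
      @Structure.funMap (LE f s) M A n F x := by
  cases F with
  | zero =>
    show @Structure.funMap (LE f s) M A 0 (ArFun.zero : ArFun f 0) _ = _
    congr 1
    exact Subsingleton.elim _ _
  | one =>
    show @Structure.funMap (LE f s) M A 2 (ArFun.add : ArFun f 2)
      ![@Structure.funMap (LE f s) M A 0 (ArFun.zero : ArFun f 0) _,
        @Structure.funMap (LE f s) M A 0 (ArFun.one : ArFun f 0) _] = _
    have h1 := @IsPAMinus.add_comm f M (red A) h
    have h2 := @IsPAMinus.add_zero f M (red A) h
    have h3 := (h1 (@zr f M (red A)) (@on f M (red A))).trans (h2 (@on f M (red A)))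
    refine Eq.trans h3 ?_
    show @Structure.funMap (LE f s) M A 0 (ArFun.one : ArFun f 0) _ = _
    congr 1
    exact Subsingleton.elim _ _
  | add =>
    show @Structure.funMap (LE f s) M A 2 (ArFun.add : ArFun f 2) ![x 0, x 1] = _
    congr 1
    funext i
    fin_cases i <;> rfl
  | mul =>
    show @Structure.funMap (LE f s) M A 2 (ArFun.mul : ArFun f 2) ![x 0, x 1] = _
    congr 1
    funext i
    fin_cases i <;> rfl
  | ext j => rfl

theorem toM_lt (hM : Nonempty M) {A : (LE f s).Structure M} (h : PAM A) (X : M → M → Prop)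
    (u : List ℕ) (k : ℕ) (x : Fin 2 → M) :
    @Structure.RelMap (LE f u) M (toM (gA hM h X) u k) 2 (Sum.inl .lt) x ↔
      @Structure.RelMap (LE f s) M A 2 (Sum.inl .lt) x := by
  have e : x = ![x 0, x 1] := by
    funext i
    fin_cases i <;> rfl
  rw [e]
  exact (h.fine.lt_iff (x 0) (x 1)).symm

/-- The structure can be recovered. -/
theorem toM_gA (hM : Nonempty M) {A : (LE f s).Structure M} (h : PAM A) (X : M → M → Prop) :
    toM (gA hM h X) s 0 = A :=
  str_ext (fun n F x => toM_fun hM h X s 0 n F x) (fun x => toM_lt hM h X s 0 x)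
    fun j x => h.code (fun j x => @Structure.RelMap (LE f s) M A _ (Sum.inr (.sym j)) x) j x

end Pool.Agent.Helper26_DEF
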