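import Pool.Agent.Helper26_DEF.Defs

/-!
# Semantics of translations, the preorder
-/

set_option autoImplicit false

namespace Pool.Agent.Helper26_DEF

open FirstOrder FirstOrder.Language

variable {f s t u : List ℕ}

theorem prov_iff {L : FirstOrder.Language.{0, 0}} {α φ : L.Sentence} :
    Prov α φ ↔ ∀ (M : Type) (_ : Nonempty M) (A : L.Structure M),
      @Sentence.Realize L M A α → @Sentence.Realize L M A φ := by
  unfold Prov
  rw [Theory.models_sentence_iff]
  constructor
  · intro h M hM A hα
    have hm : M ⊨ ({α} : L.Theory) := by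
      simpa [Theory.model_iff] using hα
    exact h (Theory.ModelType.of ({α} : L.Theory) M)
  · intro h M
    refine h M inferInstance _ ?_
    have := M.is_model
    rw [Theory.model_iff] at this
    exact this α rfl

/-- The `LE f s`-structure defined by the translation `τ` in an `LE f t`-structure. -/
@[reducible] def pull (τ : Trans f s t) (M : Type) (A : (LE f t).Structure M) :
    (LE f s).Structure M where
  funMap {n} F x := @Structure.funMap (LE f t) M A n (F : ArFun f n) x
  RelMap {n} R x := match n, R, x with
    | _, .inl R, x => @Structure.RelMap (LE f t) M A _ (Sum.inl R) x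
    | _, .inr (.sym i), x => @Formula.Realize (LE f t) M A _ (τ i) x

theorem realize_tmap (τ : Trans f s t) (M : Type) (A : (LE f t).Structure M) {α : Type}
    (v : α → M) : ∀ w : (LE f s).Term α,
    @Term.realize (LE f t) M A _ v (tmap f s t w) =
      @Term.realize (LE f s) M (pull τ M A) _ v w
  | .var x => rfl
  | .func F ts => by
    have ih := fun i => realize_tmap τ M A v (ts i)
    show @Structure.funMap (LE f t) M A _ _ (fun i => @Term.realize (LE f t) M A _ v
      (tmap f s t (ts i))) = @Structure.funMap (LE f t) M A _ _ (fun i =>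
        @Term.realize (LE f s) M (pull τ M A) _ v (ts i))
    congr 1
    funext i
    exact ih i

theorem realize_tr (τ : Trans f s t) (M : Type) (A : (LE f t).Structure M) {α : Type}
    (v : α → M) : ∀ {n : ℕ} (φ : (LE f s).BoundedFormula α n) (xs : Fin n → M),
    @BoundedFormula.Realize (LE f t) M A _ _ (tr τ φ) v xs ↔
      @BoundedFormula.Realize (LE f s) M (pull τ M A) _ _ φ v xs
  | _, .falsum, _ => Iff.rfl
  | _, .equal a b, xs => by
    show @Term.realize (LE f t) M A _ (Sum.elim v xs) (tmap f s t a) =
      @Term.realize (LE f t) M A _ (Sum.elim v xs) (tmap f s t b) ↔ _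
    rw [realize_tmap τ, realize_tmap τ]
    exact Iff.rfl
  | _, .rel (Sum.inl R) ts, xs => by
    show @Structure.RelMap (LE f t) M A _ (Sum.inl R) (fun i => @Term.realize (LE f t) M A _
      (Sum.elim v xs) (tmap f s t (ts i))) ↔ @Structure.RelMap (LE f t) M A _ (Sum.inl R)
        (fun i => @Term.realize (LE f s) M (pull τ M A) _ (Sum.elim v xs) (ts i))
    have : (fun i => @Term.realize (LE f t) M A _ (Sum.elim v xs) (tmap f s t (ts i))) =
        fun i => @Term.realize (LE f s) M (pull τ M A) _ (Sum.elim v xs) (ts i) := by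
      funext i
      exact realize_tmap τ M A _ _
    rw [this]
  | n, .rel (Sum.inr (.sym i)) ts, xs => by
    show @BoundedFormula.Realize (LE f t) M A _ _ (BoundedFormula.relabel (n := n)
      (id : α ⊕ Fin n → α ⊕ Fin n) (BoundedFormula.subst (τ i) fun k => tmap f s t (ts k))) v xs ↔
      @Formula.Realize (LE f t) M A _ (τ i)
        (fun k => @Term.realize (LE f s) M (pull τ M A) _ (Sum.elim v xs) (ts k))
    rw [@BoundedFormula.realize_relabel (LE f t) M A, @BoundedFormula.realize_subst (LE f t) M A]
    unfold Formula.Realize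
    have e1 : (fun a => @Term.realize (LE f t) M A _
        (Sum.elim v (xs ∘ Fin.castAdd 0) ∘ (id : α ⊕ Fin n → α ⊕ Fin n)) (tmap f s t (ts a))) =
        fun k => @Term.realize (LE f s) M (pull τ M A) _ (Sum.elim v xs) (ts k) := by
      funext k
      rw [realize_tmap τ]
      rfl
    rw [e1]
    have e2 : (xs ∘ Fin.natAdd n : Fin 0 → M) = default := Subsingleton.elim _ _
    rw [e2]
  | _, .imp φ ψ, xs => by
    show (@BoundedFormula.Realize (LE f t) M A _ _ (tr τ φ) v xs →
      @BoundedFormula.Realize (LE f t) M A _ _ (tr τ ψ) v xs) ↔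
      (@BoundedFormula.Realize (LE f s) M (pull τ M A) _ _ φ v xs →
      @BoundedFormula.Realize (LE f s) M (pull τ M A) _ _ ψ v xs)
    rw [realize_tr τ M A v φ, realize_tr τ M A v ψ]
  | _, .all φ, xs => by
    show (∀ a, @BoundedFormula.Realize (LE f t) M A _ _ (tr τ φ) v (Fin.snoc xs a)) ↔
      (∀ a, @BoundedFormula.Realize (LE f s) M (pull τ M A) _ _ φ v (Fin.snoc xs a))
    exact forall_congr' fun a => realize_tr τ M A v φ _

theorem realize_tr_sentence (τ : Trans f s t) (M : Type) (A : (LE f t).Structure M)
    (φ : (LE f s).Sentence) : @Sentence.Realize (LE f t) M A (tr τ φ) ↔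
      @Sentence.Realize (LE f s) M (pull τ M A) φ :=
  realize_tr τ M A _ _ _

/-! ### The preorder -/

/-- Structures are equal if they have the same functions and relations. -/
theorem str_ext {M : Type} {A B : (LE f s).Structure M}
    (h1 : ∀ (n : ℕ) (F : ArFun f n) (x : Fin n → M),
      @Structure.funMap (LE f s) M A n F x = @Structure.funMap (LE f s) M B n F x)
    (h2 : ∀ (x : Fin 2 → M), @Structure.RelMap (LE f s) M A 2 (Sum.inl .lt) x ↔
      @Structure.RelMap (LE f s) M B 2 (Sum.inl .lt) x)
    (h3 : ∀ (i : Fin s.length) (x : Fin (s.get i) → M),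
      @Structure.RelMap (LE f s) M A _ (Sum.inr (.sym i)) x ↔
      @Structure.RelMap (LE f s) M B _ (Sum.inr (.sym i)) x) : A = B := by
  refine Structure.ext ?_ ?_
  · funext n F x
    exact h1 n F x
  · funext n R x
    apply propext
    rcases R with R | R
    · cases R
      exact h2 x
    · cases R with
      | sym i => exact h3 i x

/-- The identity translation. -/
def idT (f s : List ℕ) : Trans f s s := fun i =>
  .rel (Sum.inr (.sym i)) fun k => .var (Sum.inl k)

theorem pull_id (M : Type) (A : (LE f s).Structure M) : pull (idT f s) M A = A := by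
  refine str_ext (fun _ _ _ => rfl) (fun _ => Iff.rfl) fun i x => ?_
  show @Formula.Realize (LE f s) M A _ (idT f s i) x ↔ _
  exact Iff.rfl

/-- Composition of translations. -/
def compT (τ : Trans f s t) (σ : Trans f t u) : Trans f s u := fun i => tr σ (τ i)

theorem pull_comp (τ : Trans f s t) (σ : Trans f t u) (M : Type) (A : (LE f u).Structure M) :
    pull (compT τ σ) M A = pull τ M (pull σ M A) := by
  refine str_ext (fun _ _ _ => rfl) (fun _ => Iff.rfl) fun i x => ?_
  show @Formula.Realize (LE f u) M A _ (tr σ (τ i)) x ↔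
    @Formula.Realize (LE f t) M (pull σ M A) _ (τ i) x
  exact realize_tr σ M A _ _ _

theorem Defines.refl (α : (LE f s).Sentence) : Defines α α := by
  refine ⟨idT f s, prov_iff.2 fun M _ A h => ?_⟩
  rw [realize_tr_sentence, pull_id]
  exact h

theorem Defines.trans {γ : (LE f u).Sentence} {β : (LE f t).Sentence} {α : (LE f s).Sentence}
    (h1 : Defines γ β) (h2 : Defines β α) : Defines γ α := by
  obtain ⟨σ, hσ⟩ := h1
  obtain ⟨τ, hτ⟩ := h2
  refine ⟨compT τ σ, prov_iff.2 fun M hM A h => ?_⟩
  have h3 := prov_iff.1 hσ M hM A h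
  rw [realize_tr_sentence] at h3
  have h4 := prov_iff.1 hτ M hM _ h3
  rw [realize_tr_sentence] at h4
  rw [realize_tr_sentence, pull_comp]
  exact h4

/-- The preorder of the definitions of truth: `α ≤ β` if `β` defines `α`. -/
instance {E : (LA f).Theory} {g : (LA f).Sentence → ℕ} : Preorder (DefT E g) where
  le a b := Defines b.ax a.ax
  le_refl a := Defines.refl a.ax
  le_trans _ _ _ h1 h2 := h2.trans h1

end Pool.Agent.Helper26_DEF
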